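import Pool.Agent.Lib.P913N.NSim
import Pool.Agent.Lib.P913.KZip

/-!
# A checker for machines which execute the node system

All conditions of `NLoc` follow from finitely many evaluations of local computations; every field of `NOk` can be
proved by `decide`.
-/

set_option autoImplicit false

namespace P913N

open P913

/-- the words and states of a machine which executes the node system -/
structure NData (k n : ℕ) where
  qA : Bool → Fin k
  qB : Bool → Fin k
  cr : Bool → List (Fin n)
  cl : Bool → List (Fin n)
  E : List (Fin n)
  S : List (Fin n)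
  h0 : Bool
  c : Bool
  o : ℕ
  W : Nd → List (Fin n)
  FH : List (Fin n)
  /-- length of the cells -/
  m : ℕ
  /-- number of cells at the beginning of the final word -/
  s : ℕ
  /-- bound for the number of steps of the local computations -/
  t : ℕ
  /-- number of blanks read at the right end -/
  z : ℕ

/-- the result of a local computation of a node -/
def NData.res {k n : ℕ} (D : NData k n) (g' : Nd) : Option Bool → ZO k n
  | some e => .R (D.qA !e) (D.W g').reverse
  | none => .L (D.qB D.c) (D.W g')

/-- the local computation of the node `g` for the bit `h` -/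
def NData.run {k n : ℕ} (U : TM k n) (D : NData k n) (g : Nd) (h : Bool) : ZO k n :=
  if g.wp then zrun U D.t [] (D.qA h) (D.W g) else zrunL U D.t (D.W g).reverse (D.qB h)

/-- the local computation of the node `g` for the bit `h` is correct -/
def NData.ok {k n : ℕ} (U : TM k n) (D : NData k n) (g : Nd) (h : Bool) : Bool :=
  match g.F h with
  | none => true
  | some (g', e) => decide (D.run U g h = D.res g' e)

/-- the local computations are correct -/
structure NOk {k n : ℕ} [NeZero k] [NeZero n] (U : TM k n) (D : NData k n) : Prop where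
  m_pos : 0 < D.m
  cl_len : ∀ b, (D.cl b).length = D.m
  FH_cells : ∀ i < D.s, ∃ b, chk 0 D.m D.FH i = D.cl b
  FH_stop : ∀ b, chk 0 D.m D.FH D.s ≠ D.cl b
  FH_len : D.m * (D.s + 1) ≤ D.FH.length
  cr_nz : ∀ b, ∃ s ∈ D.cr b, s ≠ 0
  E_ne : D.E ≠ []
  ho : D.o ≤ D.E.length
  passR : ∀ h x, zrun U D.t [] (D.qA h) (D.cr x) = .R (D.qA x) (D.cl h).reverse
  passL : ∀ h x, zrunL U D.t (D.cl x).reverse (D.qB h) = .L (D.qB (xor h x)) (D.cr x)
  lend : ∀ h, zrunL U D.t D.E.reverse (D.qB h) = .R (D.qA (xor h D.c)) D.E.reverse
  start : zrun U D.t (List.replicate D.o 0) 0 D.S = .R (D.qA D.h0) D.E.reverse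
  rend0 : zrun U D.t [] (D.qA false) (List.replicate D.z 0) =
    .L (D.qB false) (D.cr true ++ List.replicate (D.z - (D.cr true).length) 0)
  rend1 : zrun U D.t [] (D.qA true) (List.replicate D.z 0) = .L (D.qB false) (List.replicate D.z 0)
  ok : ∀ g h, D.ok U g h = true
  halt : D.run U .n4 false = .H D.FH
  W_ne : ∀ g, D.W g ≠ []

section

variable {k n : ℕ} [NeZero k] [NeZero n] {U : TM k n}

private theorem NOk.run_eq {D : NData k n} (h : NOk U D) {g : Nd} {b : Bool} {g' : Nd} {e : Option Bool}
    (hF : g.F b = some (g', e)) : D.run U g b = D.res g' e := by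
  have h1 := h.ok g b
  unfold NData.ok at h1
  rw [hF] at h1
  exact of_decide_eq_true h1

/-- a machine with correct local computations executes the node system -/
def NOk.loc {D : NData k n} (h : NOk U D) : NLoc U where
  qA := D.qA
  qB := D.qB
  cr := D.cr
  cl := D.cl
  E := D.E
  S := D.S
  h0 := D.h0
  c := D.c
  W := D.W
  FH := D.FH
  m := D.m
  m_pos := h.m_pos
  cl_len := h.cl_len
  s := D.s
  FH_cells := h.FH_cells
  FH_stop := h.FH_stop
  FH_len := h.FH_len
  cr_nz := h.cr_nz
  E_ne := h.E_ne
  o := D.o
  ho := h.ho
  passR := fun b x l r _ => by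
    simpa using zrun_R _ _ _ _ _ _ (h.passR b x) l r
  passL := fun b x l r hl => (zrunL_Lp (h.passL b x) l r hl).to_rn
  lend := fun b r => by
    have := (zrunL_Rp (h.lend b) [] r).to_rn
    simpa using this
  start := fun r => by
    have := zrun_R _ _ _ _ _ _ h.start [] r
    simpa using this
  rend0 := fun l hl => by
    have := zrun_L _ _ _ _ _ _ h.rend0 l [] hl
    rw [List.append_nil, List.nil_append, List.append_nil, AL_zeros] at this
    rw [← AR_zeros l (D.qA false) [] D.z]
    exact this
  rend1 := fun l hl => by
    have := zrun_L _ _ _ _ _ _ h.rend1 l [] hl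
    have e : AL l (D.qB false) (List.replicate D.z 0 ++ []) = AL l (D.qB false) [] := by
      have := AL_zeros l (D.qB false) [] D.z
      simpa using this
    rw [e, List.append_nil, List.nil_append] at this
    rw [← AR_zeros l (D.qA true) [] D.z]
    exact this
  fA := fun g b g' e hg hF l r _ => by
    have h1 := h.run_eq hF
    simp only [NData.run, hg, NData.res, if_true] at h1
    simpa using zrun_Rp (h.W_ne g) h1 l r
  fR := fun g b g' e hg hF l r _ => by
    have h1 := h.run_eq hF
    simp only [NData.run, hg, NData.res, Bool.false_eq_true, if_false] at h1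
    exact zrunL_Rp h1 l r
  fL := fun g b g' hg hF l r hl => by
    have h1 := h.run_eq hF
    simp only [NData.run, hg, NData.res, Bool.false_eq_true, if_false] at h1
    exact zrunL_Lp h1 l r hl
  halt := fun l r _ => by
    have h1 := h.halt
    have hg : Nd.n4.wp = true := rfl
    simp only [NData.run, hg, if_true] at h1
    obtain ⟨t, h2, h3⟩ := zrun_H _ _ _ _ _ h1 l r
    exact ⟨t, by simpa using h2, by simpa using h3⟩

/-- a machine with correct local computations executes the node system -/
theorem NOk.sim {D : NData k n} (h : NOk U D) : SimZ U D.h0 := simZ_of_loc h.loc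

end

end P913N
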