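import Pool.Agent.Lib.P913N.NRound
import Pool.Agent.Lib.P913.KBM
import Pool.Agent.Lib.P913.MFin

/-!
# Partial recursive functions are simulated by the system N
-/

set_option autoImplicit false

namespace P913N

open P913

/-- rotation of the program -/
theorem nhalts_rot (u w : List Bool) (x y : NC × List Bool) (h : nrun u x = some y) :
    NHalts (u ++ w) x ↔ NHalts (w ++ u) y := by
  have e1 : ∀ o, nround (u ++ w) o = nround w (nround u o) := by
    intro o
    cases o with
    | none => rfl
    | some z => exact nrun_append u w z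
  have e2 : ∀ o, nround (w ++ u) o = nround u (nround w o) := by
    intro o
    cases o with
    | none => rfl
    | some z => exact nrun_append w u z
  have e3 : ∀ (m : ℕ) o, (nround (w ++ u))^[m] (nround u o) = nround u ((nround (u ++ w))^[m] o) := by
    intro m
    induction m with
    | zero => intro o; rfl
    | succ m ih =>
      intro o
      rw [Function.iterate_succ_apply, Function.iterate_succ_apply, e2, ← e1, ih]
  have e4 : nround u (some x) = some y := h
  constructor
  · rintro ⟨m, hm⟩
    refine ⟨m, ?_⟩
    rw [← e4, e3, hm]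
    rfl
  · rintro ⟨m, hm⟩
    refine ⟨m + 1, ?_⟩
    rw [← e4, e3] at hm
    rw [Function.iterate_succ_apply', e1, hm]
    rfl

/-- the word of a neutral row -/
def nopw : List Bool := kw nopn

theorem nopw_length : nopw.length = 48 := by decide

theorem kw_append (u w : List Bk) : kw (u ++ w) = kw u ++ kw w := by
  unfold kw
  rw [List.flatMap_append]

theorem kw_nops (c : ℕ) : kw (List.replicate c nopn).flatten = (List.replicate c nopw).flatten := by
  induction c with
  | zero => rfl
  | succ c ih =>
    rw [List.replicate_succ, List.flatten_cons, kw_append, ih, List.replicate_succ, List.flatten_cons]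
    rfl

theorem kw_count (bs : List Bk) : (kw bs).count true % 2 = 0 := by
  induction bs with
  | nil => rfl
  | cons b bs ih =>
    have h : kw (b :: bs) = b.w ++ kw bs := rfl
    have hb : b.w.count true % 2 = 0 := by
      cases b with
      | M n =>
        simp only [Bk.w, List.count_cons, List.count_append, List.count_replicate]
        simp
      | Z n =>
        simp only [Bk.w, List.count_cons, List.count_append, List.count_replicate]
        simp
      | H => rfl
    rw [h, List.count_append]
    omega

/-- the word of the slots and one neutral row without the first two bits -/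
def nw0 {N : ℕ} (P : Fin N → CI (Fin N)) : List Bool :=
  nopw.drop 2 ++ kw ((List.finRange N).flatMap (nslot P))

/-- the program after the rotation -/
def nwd (w0 : List Bool) (c : ℕ) : List Bool := w0 ++ ((List.replicate c nopw).flatten ++ [true, false])

theorem kw_nprog {N : ℕ} (P : Fin N → CI (Fin N)) (c : ℕ) :
    kw (nprog P c) = [true, false] ++ (nw0 P ++ (List.replicate c nopw).flatten) := by
  unfold nprog nw0
  rw [kw_append, kw_append, kw_nops]
  have h : kw nopn = [true, false] ++ nopw.drop 2 := by decide
  rw [h]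
  simp only [List.append_assoc]

theorem nwd_length (w0 : List Bool) (c : ℕ) : (nwd w0 c).length = w0.length + 2 + 48 * c := by
  have h : ((List.replicate c nopw).flatten).length = 48 * c := by
    rw [List.length_flatten, List.map_replicate, nopw_length, List.sum_replicate, smul_eq_mul]
    ring
  unfold nwd
  rw [List.length_append, List.length_append, h]
  simp
  omega

theorem nwd_last (w0 : List Bool) (c : ℕ) : (nwd w0 c).getLast? = some false := by
  unfold nwd
  simp

theorem nwd_mem (w0 : List Bool) (c : ℕ) : true ∈ nwd w0 c := by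
  unfold nwd
  simp

theorem nwd_count {N : ℕ} (P : Fin N → CI (Fin N)) (c : ℕ) : (nwd (nw0 P) c).count true % 2 = 0 := by
  have h := kw_count (nprog P c)
  rw [kw_nprog] at h
  unfold nwd
  simp only [List.count_append] at h ⊢
  omega

/-- the first queue -/
def nq (N Y J : ℕ) (v : ℕ × ℕ × ℕ) : List Bool :=
  oq (fat [gg N + 3 * J, gg N + 3 * v.1, gg N + 3 * v.2.1, gg N + 3 * v.2.2, gg N + 100]) (Y + 3)

theorem nq_start (N Y J : ℕ) (v : ℕ × ℕ × ℕ) : nrun [true, false] (rn N Y J v) = some (NC.c, nq N Y J v) := by
  unfold rn fa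
  rw [nrun]
  simp only
  rw [nst_a1, Option.bind_some, nrun]
  simp only
  rw [nst_c00, Option.bind_some]
  rfl

theorem nwd_halts {N : ℕ} (P : Fin N → CI (Fin N)) (c Y : ℕ) (s : Fin N × ℕ × ℕ × ℕ)
    (hY : 2 * gg N + 3 * N + 3 ≤ Y + 3 * s.1) :
    NHalts (nwd (nw0 P) c) (NC.c, nq N Y s.1 s.2) ↔ CtHalts P s := by
  rw [← nprog_halts P c Y s hY, kw_nprog, nhalts_rot _ _ _ _ (nq_start N Y s.1 s.2)]
  unfold nwd
  rw [List.append_assoc]

theorem oq_count (t : List ℕ) (x : ℕ) : (oq (fat t) x).count false = t.sum + x := by
  have h : ∀ t : List ℕ, ((fat t).flatMap fun y => List.replicate y false ++ [true]).count false = t.sum := by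
    intro t
    induction t with
    | nil => rfl
    | cons y t ih =>
      rw [fat_cons, List.flatMap_cons, List.flatMap_cons]
      simp only [List.count_append, ih, List.sum_cons]
      simp [List.count_replicate]
  unfold oq
  rw [List.count_append, h, List.count_replicate]
  simp

theorem nq_count (N J a b : ℕ) :
    (nq N (2 * gg N + 3 * N + 3 + J + a + b) J (a, b, 0)).count false % 2 = 0 := by
  have hG : gg N = 3 * N + 400 := rfl
  unfold nq
  rw [oq_count]
  simp only [List.sum_cons, List.sum_nil]
  omega

theorem nq_length (N Y J : ℕ) (v : ℕ × ℕ × ℕ) : 2 ≤ (nq N Y J v).length := by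
  unfold nq oq
  rw [List.length_append, List.length_replicate]
  omega

namespace NExiAux

theorem repl_prim : Primrec fun x : ℕ => List.replicate x false := by
  have h : Primrec fun x : ℕ => (List.range x).map fun _ => false :=
    Primrec.list_map Primrec.list_range ((Primrec.const false).to₂)
  refine h.of_eq fun x => ?_
  simp

theorem nq_prim (N K : ℕ) : Primrec fun x : ℕ × ℕ × ℕ => nq N (K + x.1 + x.2.1 + x.2.2) x.1 (x.2.1, x.2.2, 0) := by
  have h3 : Primrec fun k : ℕ => gg N + 3 * k :=
    Primrec.nat_add.comp (Primrec.const _) (Primrec.nat_mul.comp (Primrec.const _) Primrec.id)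
  have hb : ∀ g : ℕ × ℕ × ℕ → ℕ, Primrec g → Primrec fun x : ℕ × ℕ × ℕ =>
      List.replicate (gg N + 3 * g x) false ++ [true, true] := by
    intro g hg
    exact Primrec.list_append.comp (repl_prim.comp (h3.comp hg)) (Primrec.const _)
  have hY : Primrec fun x : ℕ × ℕ × ℕ => K + x.1 + x.2.1 + x.2.2 + 3 :=
    Primrec.nat_add.comp (Primrec.nat_add.comp (Primrec.nat_add.comp (Primrec.nat_add.comp (Primrec.const _)
      Primrec.fst) (Primrec.fst.comp Primrec.snd)) (Primrec.snd.comp Primrec.snd)) (Primrec.const 3)
  have h : Primrec fun x : ℕ × ℕ × ℕ => (List.replicate (gg N + 3 * x.1) false ++ [true, true]) ++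
      ((List.replicate (gg N + 3 * x.2.1) false ++ [true, true]) ++
        ((List.replicate (gg N + 3 * x.2.2) false ++ [true, true]) ++
          ((List.replicate (gg N) false ++ [true, true]) ++
            ((List.replicate (gg N + 100) false ++ [true, true]) ++
              List.replicate (K + x.1 + x.2.1 + x.2.2 + 3) false)))) := by
    refine Primrec.list_append.comp (hb _ Primrec.fst) ?_
    refine Primrec.list_append.comp (hb _ (Primrec.fst.comp Primrec.snd)) ?_
    refine Primrec.list_append.comp (hb _ (Primrec.snd.comp Primrec.snd)) ?_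
    refine Primrec.list_append.comp (Primrec.const _) ?_
    refine Primrec.list_append.comp (Primrec.const _) ?_
    exact repl_prim.comp hY
  refine h.of_eq fun x => ?_
  simp [nq, oq, fat]

end NExiAux

open NExiAux

theorem exists_nn (f : ℕ →. ℕ) (hf : Nat.Partrec f) :
    ∃ (w0 : List Bool) (D : ℕ → List Bool), Computable D ∧ ∀ v c : ℕ,
      (nwd w0 c).count true % 2 = 0 ∧ (D v).count false % 2 = 0 ∧ 2 ≤ (D v).length ∧
        (NHalts (nwd w0 c) (NC.c, D v) ↔ (f v).Dom) := by
  obtain ⟨Nb, B, q0, inp, hinp, hB⟩ := exists_bm f hf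
  obtain ⟨m, P, ini, hP⟩ := bm_to_ct B
  refine ⟨nw0 P, fun v => nq (m + 1) (2 * gg (m + 1) + 3 * (m + 1) + 3 + (ini q0 (inp v).2.1 : ℕ) + (inp v).1 +
      (inp v).2.2) (ini q0 (inp v).2.1 : ℕ) ((inp v).1, (inp v).2.2, 0), ?_,
    fun v c => ⟨nwd_count P c, ?_, nq_length _ _ _ _, ?_⟩⟩
  · have h := (nq_prim (m + 1) (2 * gg (m + 1) + 3 * (m + 1) + 3)).to_comp
    refine h.comp (Computable.pair ?_ (Computable.pair (Computable.fst.comp hinp) ?_))
    · exact (Primrec.dom_finite (fun b : Bool => (ini q0 b : ℕ))).to_comp.comp
        (Computable.fst.comp (Computable.snd.comp hinp))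
    · exact Computable.snd.comp (Computable.snd.comp hinp)
  · exact nq_count (m + 1) (ini q0 (inp v).2.1 : ℕ) (inp v).1 (inp v).2.2
  · rw [← hB v]
    have h1 := hP q0 (inp v).1 (inp v).2.1 (inp v).2.2
    have h2 := nwd_halts P c (2 * gg (m + 1) + 3 * (m + 1) + 3 + (ini q0 (inp v).2.1 : ℕ) + (inp v).1 +
      (inp v).2.2) (ini q0 (inp v).2.1, (inp v).1, (inp v).2.2, 0) (by omega)
    rw [← h1, ← h2]

end P913N
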