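import Pool.Agent.Lib.P913N.NSeg

/-!
# The halting segment of the system N
-/

set_option autoImplicit false

namespace P913N

open P913

theorem nsh_zero (N Y : ℕ) (v : ℕ × ℕ × ℕ) : nb (nsh N) (rn N Y 0 v) = none := by
  obtain ⟨A, hA⟩ : ∃ A, gg N + 3 * v.1 = A + 1 := ⟨gg N + 3 * v.1 - 1, by have : gg N = 3 * N + 400 := rfl; omega⟩
  unfold nsh rn
  rw [hA]
  generalize gg N = G at *
  simp only [Nat.mul_zero, Nat.add_zero]
  rw [nb_cons, fa, fat_cons, fat_cons, tHit, Option.bind_some, nb_cons, List.cons_append, tHH]
  rfl

theorem nsh_pos (N Y J a b c : ℕ) : nb (nsh N) (rn N Y (J + 1) (a, b, c)) = some (rn N (Y + 39) J (a, b, c)) := by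
  have hG : gg N = 3 * N + 400 := rfl
  obtain ⟨B, hB⟩ : ∃ B, gg N + 3 * b = B + 1 := ⟨gg N + 3 * b - 1, by omega⟩
  unfold nsh rn
  generalize gg N = G at *
  dsimp only
  rw [hB]
  simp only [fa, fat_cons]
  rw [show fat [] = ([] : List ℕ) from rfl]
  rw [nb_cons, tM _ _ _ _ (by omega) (by omega), Option.bind_some]
  simp only [List.cons_append, List.nil_append]
  rw [nb_cons, tH, Option.bind_some]
  simp only [List.cons_append, List.nil_append]
  rw [nb_cons, tG, Option.bind_some]
  simp only [List.cons_append, List.nil_append]
  rw [nb_cons, tM _ _ _ _ (by omega) (by omega), Option.bind_some]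
  simp only [List.cons_append, List.nil_append]
  rw [nb_cons, tM _ _ _ _ (by omega) (by omega), Option.bind_some]
  simp only [List.cons_append, List.nil_append]
  rw [nb_cons, tM _ _ _ _ (by omega) (by omega), Option.bind_some]
  simp only [List.cons_append, List.nil_append]
  rw [nb_cons, tM _ _ _ _ (by omega) (by omega), Option.bind_some]
  simp only [List.cons_append, List.nil_append]
  rw [nb_cons, tT _ _ _ _ (by omega), Option.bind_some]
  simp only [List.cons_append, List.nil_append]
  rw [nb_cons, tTF _ _ _ _ (by omega) (by omega), Option.bind_some]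
  simp only [List.cons_append, List.nil_append]
  rw [nb_cons, tM _ _ _ _ (by omega) (by omega), Option.bind_some]
  simp only [List.cons_append, List.nil_append]
  rw [nb_cons, tM _ _ _ _ (by omega) (by omega), Option.bind_some]
  simp only [List.cons_append, List.nil_append]
  rw [nb_cons, tM _ _ _ _ (by omega) (by omega), Option.bind_some]
  simp only [List.cons_append, List.nil_append]
  rw [nb_cons, tM _ _ _ _ (by omega) (by omega), Option.bind_some]
  simp only [List.cons_append, List.nil_append]
  rw [nb_cons, tM _ _ _ _ (by omega) (by omega), Option.bind_some]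
  simp only [List.cons_append, List.nil_append]
  rw [nb_cons, tM _ _ _ _ (by omega) (by omega), Option.bind_some]
  simp only [List.cons_append, List.nil_append]
  rw [nb_cons, tM _ _ _ _ (by omega) (by omega), Option.bind_some]
  simp only [List.cons_append, List.nil_append]
  rw [nb_cons, tM _ _ _ _ (by omega) (by omega), Option.bind_some]
  simp only [List.cons_append, List.nil_append]
  rw [nb_cons, tM _ _ _ _ (by omega) (by omega), Option.bind_some]
  simp only [List.cons_append, List.nil_append, nb_nil, Option.some.injEq, Prod.mk.injEq, true_and]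
  congr 1
  · simp only [List.cons.injEq, and_true, true_and]
    refine ⟨?_, ?_, ?_, ?_, ?_⟩ <;> omega
  · omega

end P913N
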