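import Pool.Agent.Lib.P913N.NSim

/-!
# The node system executes the system N

Between two letters of the program the node system is in a configuration `cw x w`: `x` is the class and the queue of the
system N, `w` is the cyclic word of the program which begins with the held letter.  In the classes `a` and `g` the queue of
the node system has an additional `0` in front.
-/

set_option autoImplicit false

namespace P913N

open P913

namespace NMachAux

/-- at least one step -/
def Zp (c c' : ZC) : Prop := ∃ n : ℕ, ziter (n + 1) c = c'

def Zn (c c' : ZC) : Prop := ∃ n : ℕ, ziter n c = c'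

theorem ziter_add (m n : ℕ) (c : ZC) : ziter (m + n) c = ziter m (ziter n c) :=
  Function.iterate_add_apply _ m n c

theorem Zn.refl (c : ZC) : Zn c c := ⟨0, rfl⟩

theorem Zn.trans {a b c : ZC} (h : Zn a b) (h' : Zn b c) : Zn a c := by
  obtain ⟨m, rfl⟩ := h
  obtain ⟨n, rfl⟩ := h'
  exact ⟨n + m, ziter_add n m a⟩

theorem Zp.trans_n {a b c : ZC} (h : Zp a b) (h' : Zn b c) : Zp a c := by
  obtain ⟨m, rfl⟩ := h
  obtain ⟨n, rfl⟩ := h'
  refine ⟨n + m, ?_⟩
  rw [show n + m + 1 = n + (m + 1) by omega]
  exact ziter_add n (m + 1) a

theorem Zp.n {a b : ZC} (h : Zp a b) : Zn a b := by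
  obtain ⟨m, rfl⟩ := h
  exact ⟨m + 1, rfl⟩

theorem Zp_step {a b : ZC} (h : zstep a = some b) : Zp a b := by
  refine ⟨0, ?_⟩
  simp [ziter, h]

theorem bp_app (l m : List Bool) : bp (l ++ m) = xor (bp l) (bp m) := by
  induction l with
  | nil => simp [bp]
  | cons a l ih => rw [List.cons_append, bp_cons, bp_cons, ih, Bool.xor_assoc]

theorem zp_cons (x : Bool) (l : List Bool) : zp (x :: l) = xor (!x) (zp l) := rfl

theorem zp_nil : zp [] = false := rfl

theorem zp_app (l m : List Bool) : zp (l ++ m) = xor (zp l) (zp m) := by
  simp only [zp, List.map_append, bp_app]

theorem zp_snoc (l : List Bool) (e : Bool) : zp (l ++ [e]) = xor (zp l) (!e) := by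
  rw [zp_app]
  congr 1
  cases e <;> rfl

theorem bp_count (l : List Bool) : bp l = decide (l.count true % 2 = 1) := by
  induction l with
  | nil => rfl
  | cons a l ih =>
    rw [bp_cons, ih]
    rcases Nat.mod_two_eq_zero_or_one (l.count true) with h | h
    · cases a
      · simp [h]
      · have : (l.count true + 1) % 2 = 1 := by omega
        simp [h, this]
    · cases a
      · simp [h]
      · have : (l.count true + 1) % 2 = 0 := by omega
        simp [h, this]

theorem zp_count (l : List Bool) : zp l = decide (l.count false % 2 = 1) := by
  have h : (l.map not).count true = l.count false := by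
    induction l with
    | nil => rfl
    | cons a l ih => cases a <;> simp [ih]
  rw [zp, bp_count, h]

/-- the node receives the parity after the letter `e` is pushed to the queue `q` -/
def sD (g : Nd) (p q : List Bool) (e : Bool) : ZC :=
  ⟨g, zp (popq (q ++ [e])).2, p,
    if (popq (q ++ [e])).1 = true then false :: (popq (q ++ [e])).2 else (popq (q ++ [e])).2⟩

/-- the node receives a letter of the program ring -/
def sP (g : Nd) (p q : List Bool) : ZC := ⟨g, (popq (p ++ [bp p])).1, (popq (p ++ [bp p])).2, q⟩

theorem sD_cons (g : Nd) (p : List Bool) (z : Bool) (t : List Bool) (e : Bool) :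
    sD g p (z :: t) e = ⟨g, zp (t ++ [e]), p, if z = true then false :: (t ++ [e]) else t ++ [e]⟩ := rfl

theorem step_D (g : Nd) (h : Bool) (p q : List Bool) (g' : Nd) (e : Bool) (hF : g.F h = some (g', some e)) :
    zstep ⟨g, h, p, q⟩ = some (sD g' p q e) := by
  simp [zstep, hF, sD]

theorem step_P (g : Nd) (h : Bool) (p q : List Bool) (g' : Nd) (hF : g.F h = some (g', none)) :
    zstep ⟨g, h, p, q⟩ = some (sP g' p q) := by
  simp [zstep, hF, sP]

/-- the zeros in front of the queue go to its end (class f) -/
theorem floop (p : List Bool) : ∀ (u : List Bool) (s : ℕ), true ∈ u → zp (u ++ List.replicate s false) = false →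
    Zn (sD .n2 p (u ++ List.replicate s false) false) (sP .n4 p (false :: rotf (s + 1) u)) := by
  intro u
  induction u with
  | nil => intro s h; simp at h
  | cons z u ih =>
    intro s hu hz
    rw [List.cons_append, zp_cons] at hz
    rw [List.cons_append, sD_cons, zp_snoc]
    have e : u ++ List.replicate s false ++ [false] = u ++ List.replicate (s + 1) false := by
      rw [List.append_assoc, List.replicate_succ']
    cases z with
    | true =>
      have hz' : zp (u ++ List.replicate s false) = false := by simpa using hz
      rw [hz', e]
      refine (Zp_step ?_).n
      rw [step_P .n2 _ p _ .n4 rfl]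
      rfl
    | false =>
      have hz' : zp (u ++ List.replicate s false) = true := by simpa using hz
      rw [hz', e]
      have h1 : zstep ⟨.n2, xor true !false, p, if false = true then
          false :: (u ++ List.replicate (s + 1) false) else u ++ List.replicate (s + 1) false⟩ =
          some (sD .n2 p (u ++ List.replicate (s + 1) false) false) := by
        rw [step_D .n2 _ p _ .n2 false rfl]
        rfl
      have h2 := ih (s + 1) (by simpa using hu) (by rw [← e, zp_snoc, hz']; rfl)
      exact (Zp_step h1).n.trans h2

/-- the zeros in front of the queue go to its end (class i) -/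
theorem iloop (p : List Bool) : ∀ (u : List Bool) (s : ℕ), true ∈ u → zp (u ++ List.replicate s false) = true →
    Zn (sD .n3 p (u ++ List.replicate s false) false) (sP .n1 p (false :: rotf (s + 1) u)) := by
  intro u
  induction u with
  | nil => intro s h; simp at h
  | cons z u ih =>
    intro s hu hz
    rw [List.cons_append, zp_cons] at hz
    rw [List.cons_append, sD_cons, zp_snoc]
    have e : u ++ List.replicate s false ++ [false] = u ++ List.replicate (s + 1) false := by
      rw [List.append_assoc, List.replicate_succ']
    cases z with
    | true =>
      have hz' : zp (u ++ List.replicate s false) = true := by simpa using hz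
      rw [hz', e]
      refine (Zp_step ?_).n
      rw [step_P .n3 _ p _ .n1 rfl]
      rfl
    | false =>
      have hz' : zp (u ++ List.replicate s false) = false := by simpa using hz
      rw [hz', e]
      have h1 : zstep ⟨.n3, xor false !false, p, if false = true then
          false :: (u ++ List.replicate (s + 1) false) else u ++ List.replicate (s + 1) false⟩ =
          some (sD .n3 p (u ++ List.replicate (s + 1) false) false) := by
        rw [step_D .n3 _ p _ .n3 false rfl]
        rfl
      have h2 := ih (s + 1) (by simpa using hu) (by rw [← e, zp_snoc, hz']; rfl)
      exact (Zp_step h1).n.trans h2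

theorem rotf_zeros : ∀ (q : List Bool) (s j : ℕ), true ∈ q →
    rotf s (q ++ List.replicate j false) = rotf (s + j) q := by
  intro q
  induction q with
  | nil => intro s j h; simp at h
  | cons a q ih =>
    intro s j h
    cases a with
    | true =>
      simp only [List.cons_append, rotf, List.append_assoc]
      rw [List.replicate_append_replicate, Nat.add_comm]
    | false =>
      simp only [List.cons_append, rotf]
      rw [ih (s + 1) j (by simpa using h)]
      congr 1
      omega

theorem rotf_length : ∀ (q : List Bool) (s : ℕ), true ∈ q → (rotf s q).length + 1 = q.length + s := by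
  intro q
  induction q with
  | nil => intro s h; simp at h
  | cons a q ih =>
    intro s h
    cases a with
    | true => simp [rotf]; omega
    | false =>
      simp only [rotf, List.length_cons]
      have := ih (s + 1) (by simpa using h)
      omega

theorem zp_replicate (s : ℕ) : zp (List.replicate s false) = decide (s % 2 = 1) := by
  rw [zp_count]
  simp

theorem zp_rotf : ∀ (q : List Bool) (s : ℕ), true ∈ q → zp (rotf s q) = xor (zp q) (decide (s % 2 = 1)) := by
  intro q
  induction q with
  | nil => intro s h; simp at h
  | cons a q ih =>
    intro s h
    cases a with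
    | true =>
      simp only [rotf]
      rw [zp_app, zp_replicate, zp_cons]
      simp
    | false =>
      simp only [rotf]
      rw [ih (s + 1) (by simpa using h), zp_cons]
      rcases Nat.mod_two_eq_zero_or_one s with h' | h'
      · have : (s + 1) % 2 = 1 := by omega
        simp [h', this]
      · have : (s + 1) % 2 = 0 := by omega
        cases zp q <;> simp [h', this]

/-- the node of a class -/
def nd : NC → Nd
  | .a => .n4
  | .c => .n1
  | .g => .n1
  | .s => .n1

/-- the queue of the node system -/
def ph : NC → List Bool → List Bool
  | .a, q => false :: q
  | .c, q => q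
  | .g, q => false :: q
  | .s, q => q

/-- the invariant: the parity of the zeros -/
def inv : NC × List Bool → Prop
  | (.a, q) => zp q = true
  | (.c, q) => zp q = false ∧ q ≠ []
  | (.g, q) => zp q = false
  | (.s, _) => False

/-- the weight of a class -/
def wt : NC → ℕ
  | .a => 1
  | .c => 0
  | .g => 1
  | .s => 0

/-- the configuration between two letters of the program -/
def cw (x : NC × List Bool) (w : List Bool) : ZC := ⟨nd x.1, (popq w).1, (popq w).2, ph x.1 x.2⟩

theorem sP_cw (x : NC × List Bool) (p : List Bool) (b : Bool) (h : bp (b :: p) = false) :
    sP (nd x.1) p (ph x.1 x.2) = cw x (p ++ [b]) := by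
  have e : bp p = b := by
    rw [bp_cons] at h
    revert h
    cases b <;> cases bp p <;> simp
  simp only [sP, cw, e]

/-- one letter of the program: the cases -/
theorem step_ok (x : NC × List Bool) (b : Bool) (p : List Bool) (hx : inv x) (hp : bp (b :: p) = false) :
    (nst x.1 b x.2 = none → zstep (cw x (b :: p)) = none ∧ x.2.length ≤ (cw x (b :: p)).q.length) ∧
    (∀ x', nst x.1 b x.2 = some x' → x'.1 = .s → ¬ ZHalts (cw x (b :: p))) ∧
    (∀ x', nst x.1 b x.2 = some x' → x'.1 ≠ .s → Zp (cw x (b :: p)) (cw x' (p ++ [b])) ∧ inv x' ∧
      2 * x.2.length + wt x.1 + (if b = true then 1 else 0) ≤ 2 * x'.2.length + wt x'.1) := by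
  obtain ⟨cl, q⟩ := x
  cases cl with
  | s => exact absurd hx (by simp [inv])
  | a =>
    have hz : zp q = true := hx
    cases b with
    | false =>
      refine ⟨fun _ => ⟨rfl, by simp [cw, ph]⟩, ?_, ?_⟩
      · intro x' h
        simp [nst] at h
      · intro x' h
        simp [nst] at h
    | true =>
      refine ⟨fun h => by simp [nst] at h, ?_, ?_⟩
      · intro x' h h'
        simp only [nst, Option.some.injEq] at h
        subst h
        simp at h'
      · intro x' h _
        simp only [nst, Option.some.injEq] at h
        subst h
        have h1 : zstep (cw (.a, q) (true :: p)) = some (sD .n0 p (false :: q) false) :=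
          step_D .n4 true p (false :: q) .n0 false rfl
        have h2 : zstep (sD .n0 p (false :: q) false) = some (sP .n1 p (q ++ [false])) := by
          rw [sD_cons, zp_snoc, hz]
          exact step_P .n0 false p _ .n1 rfl
        refine ⟨?_, ⟨by rw [zp_snoc, hz]; rfl, by simp⟩, by simp [wt]; omega⟩
        have h3 := sP_cw (.c, q ++ [false]) p true hp
        rw [← h3]
        exact (Zp_step h1).trans_n (Zp_step h2).n
  | c =>
    obtain ⟨hz, hne⟩ : zp q = false ∧ q ≠ [] := hx
    cases q with
    | nil => exact absurd rfl hne
    | cons z t =>
      rw [zp_cons] at hz
      cases b with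
      | false =>
        refine ⟨fun h => by simp [nst] at h, ?_, ?_⟩
        · intro x' h h'
          simp only [nst, Option.some.injEq] at h
          subst h
          simp at h'
        · intro x' h _
          simp only [nst, Option.some.injEq] at h
          subst h
          have h1 : zstep (cw (.c, z :: t) (false :: p)) = some (sD .n3 p (z :: t) false) :=
            step_D .n1 false p (z :: t) .n3 false rfl
          cases z with
          | false =>
            have hz' : zp t = true := by simpa using hz
            have h2 : zstep (sD .n3 p (false :: t) false) = some (sP .n1 p (t ++ [false])) := by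
              rw [sD_cons, zp_snoc, hz']
              exact step_P .n3 false p _ .n1 rfl
            simp only [Bool.false_eq_true, if_false]
            refine ⟨?_, ⟨by rw [zp_snoc, hz']; rfl, by simp⟩, by simp [wt]⟩
            have h3 := sP_cw (.c, t ++ [false]) p false hp
            rw [← h3]
            exact (Zp_step h1).trans_n (Zp_step h2).n
          | true =>
            have hz' : zp t = false := by simpa using hz
            have h2 : zstep (sD .n3 p (true :: t) false) = some (sD .n3 p (false :: (t ++ [false])) false) := by
              rw [sD_cons, zp_snoc, hz']
              exact step_D .n3 true p _ .n3 false rfl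
            have h2' : zstep (sD .n3 p (false :: (t ++ [false])) false) =
                some (sP .n1 p (t ++ [false] ++ [false])) := by
              rw [sD_cons, zp_snoc, zp_snoc, hz']
              exact step_P .n3 false p _ .n1 rfl
            have e : t ++ [false] ++ [false] = t ++ [false, false] := by simp
            rw [e] at h2'
            simp only [if_true]
            refine ⟨?_, ⟨by rw [← e, zp_snoc, zp_snoc, hz']; rfl, by simp⟩, by simp [wt]⟩
            have h3 := sP_cw (.c, t ++ [false, false]) p false hp
            rw [← h3]
            exact (Zp_step h1).trans_n ((Zp_step h2).n.trans (Zp_step h2').n)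
      | true =>
        have h1 : zstep (cw (.c, z :: t) (true :: p)) = some (sD .n0 p (z :: t) true) :=
          step_D .n1 true p (z :: t) .n0 true rfl
        cases z with
        | true =>
          have hz' : zp t = false := by simpa using hz
          refine ⟨fun h => by simp [nst] at h, ?_, ?_⟩
          · intro x' h h'
            simp only [nst, Option.some.injEq] at h
            subst h
            simp at h'
          · intro x' h _
            simp only [nst, Option.some.injEq] at h
            subst h
            have h2 : zstep (sD .n0 p (true :: t) true) = some (sP .n1 p (false :: (t ++ [true]))) := by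
              rw [sD_cons, zp_snoc, hz']
              exact step_P .n0 false p _ .n1 rfl
            refine ⟨?_, by show zp (t ++ [true]) = false; rw [zp_snoc, hz']; rfl, by simp [wt]⟩
            have h3 := sP_cw (.g, t ++ [true]) p true hp
            rw [← h3]
            exact (Zp_step h1).trans_n (Zp_step h2).n
        | false =>
          have hz' : zp t = true := by simpa using hz
          refine ⟨fun h => by simp [nst] at h, ?_, ?_⟩
          · intro x' h h'
            simp only [nst, Option.some.injEq] at h
            subst h
            simp at h'
          · intro x' h _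
            simp only [nst, Option.some.injEq] at h
            subst h
            have hm : true ∈ t ++ [true, true] := by simp
            have hzz : zp (t ++ [true, true]) = true := by
              have e : t ++ [true, true] = t ++ [true] ++ [true] := by simp
              rw [e, zp_snoc, zp_snoc, hz']
              rfl
            have h2 : zstep (sD .n0 p (false :: t) true) = some (sD .n2 p (t ++ [true]) true) := by
              rw [sD_cons, zp_snoc, hz']
              exact step_D .n0 true p _ .n2 true rfl
            have h3 : Zn (sD .n2 p (t ++ [true]) true) (sP .n4 p (false :: rotf 0 (t ++ [true, true]))) := by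
              obtain ⟨z', t', ht'⟩ : ∃ z' t', t ++ [true] = z' :: t' := by
                cases t with
                | nil => exact ⟨true, [], rfl⟩
                | cons a t => exact ⟨a, t ++ [true], rfl⟩
              have hzt : zp (z' :: t') = true := by
                rw [← ht', zp_snoc, hz']
                rfl
              have e : t ++ [true, true] = z' :: (t' ++ [true]) := by
                have : t ++ [true, true] = t ++ [true] ++ [true] := by simp
                rw [this, ht']
                rfl
              rw [ht', e, sD_cons, zp_snoc]
              rw [zp_cons] at hzt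
              cases z' with
              | true =>
                have ht2 : zp t' = true := by simpa using hzt
                rw [ht2]
                refine (Zp_step ?_).n
                rw [step_P .n2 _ p _ .n4 rfl]
                simp [rotf]
              | false =>
                have ht2 : zp t' = false := by simpa using hzt
                rw [ht2]
                have h5 : zstep ⟨.n2, xor false !true, p, if false = true then
                    false :: (t' ++ [true]) else t' ++ [true]⟩ = some (sD .n2 p (t' ++ [true]) false) := by
                  rw [step_D .n2 _ p _ .n2 false rfl]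
                  rfl
                have h6 := floop p (t' ++ [true]) 0 (by simp) (by
                  simp only [List.replicate_zero, List.append_nil]
                  rw [zp_snoc, ht2]
                  rfl)
                simp only [List.replicate_zero, List.append_nil] at h6
                exact (Zp_step h5).n.trans h6
            refine ⟨?_, by show zp (rotf 0 (t ++ [true, true])) = true; rw [zp_rotf _ _ hm, hzz]; rfl, ?_⟩
            · have h4 := sP_cw (.a, rotf 0 (t ++ [true, true])) p true hp
              rw [← h4]
              exact (Zp_step h1).trans_n ((Zp_step h2).n.trans h3)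
            · have := rotf_length (t ++ [true, true]) 0 hm
              simp only [List.length_append, List.length_cons, List.length_nil] at this
              simp only [wt, List.length_cons]
              simp
              omega
  | g =>
    have hz : zp q = false := hx
    cases b with
    | true =>
      refine ⟨fun h => by simp [nst] at h, ?_, ?_⟩
      · intro x' h h'
        simp only [nst, Option.some.injEq] at h
        subst h
        simp at h'
      · intro x' h _
        simp only [nst, Option.some.injEq] at h
        subst h
        have h1 : zstep (cw (.g, q) (true :: p)) = some (sD .n0 p (false :: q) true) :=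
          step_D .n1 true p (false :: q) .n0 true rfl
        have h2 : zstep (sD .n0 p (false :: q) true) = some (sP .n1 p (q ++ [true])) := by
          rw [sD_cons, zp_snoc, hz]
          exact step_P .n0 false p _ .n1 rfl
        refine ⟨?_, ⟨by rw [zp_snoc, hz]; rfl, by simp⟩, by simp [wt]; omega⟩
        have h3 := sP_cw (.c, q ++ [true]) p true hp
        rw [← h3]
        exact (Zp_step h1).trans_n (Zp_step h2).n
    | false =>
      have h1 : zstep (cw (.g, q) (false :: p)) = some (sD .n3 p (false :: q) false) :=
        step_D .n1 false p (false :: q) .n3 false rfl
      by_cases hq : true ∈ q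
      · refine ⟨fun h => by simp [nst, hq] at h, ?_, ?_⟩
        · intro x' h h'
          simp only [nst, hq, if_true, Option.some.injEq] at h
          subst h
          simp at h'
        · intro x' h _
          simp only [nst, hq, if_true, Option.some.injEq] at h
          subst h
          have h2 : zstep (sD .n3 p (false :: q) false) = some (sD .n3 p (q ++ [false]) false) := by
            rw [sD_cons, zp_snoc, hz]
            exact step_D .n3 true p _ .n3 false rfl
          have h3 := iloop p q 1 hq (by
            simp only [List.replicate_one]
            rw [zp_snoc, hz]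
            rfl)
          simp only [List.replicate_one] at h3
          have e : rotf 0 (q ++ [false, false]) = rotf (1 + 1) q := by
            have := rotf_zeros q 0 2 hq
            simpa [List.replicate_succ] using this
          rw [← e] at h3
          refine ⟨?_, ?_, ?_⟩
          · have h4 := sP_cw (.g, rotf 0 (q ++ [false, false])) p false hp
            rw [← h4]
            exact (Zp_step h1).trans_n ((Zp_step h2).n.trans h3)
          · show zp (rotf 0 (q ++ [false, false])) = false
            rw [e, zp_rotf _ _ hq, hz]
            rfl
          · rw [e]
            have := rotf_length q 2 hq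
            simp only [wt]
            simp
            omega
      · refine ⟨fun h => by simp [nst, hq] at h, ?_, ?_⟩
        · intro x' _ _
          rintro ⟨N, hN⟩
          have hrep : q ++ [false] = List.replicate (q.length + 1) false := by
            rw [List.replicate_succ']
            congr 1
            apply List.eq_replicate_iff.mpr
            refine ⟨rfl, fun b hb => ?_⟩
            cases b with
            | false => rfl
            | true => exact absurd hb hq
          have hS : sD .n3 p (false :: q) false = ⟨.n3, true, p, q ++ [false]⟩ := by
            rw [sD_cons, zp_snoc, hz]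
            rfl
          have hfix : zstep ⟨.n3, true, p, q ++ [false]⟩ = some ⟨.n3, true, p, q ++ [false]⟩ := by
            rw [step_D .n3 true p _ .n3 false rfl]
            congr 1
            have e : q ++ [false] = false :: q := by
              rw [hrep, List.replicate_succ]
              congr 1
              symm
              apply List.eq_replicate_iff.mpr
              refine ⟨rfl, fun b hb => ?_⟩
              cases b with
              | false => rfl
              | true => exact absurd hb hq
            conv_lhs => rw [e]
            exact hS
          have hall : ∀ n, ziter (n + 1) (cw (.g, q) (false :: p)) = ⟨.n3, true, p, q ++ [false]⟩ := by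
            intro n
            induction n with
            | zero =>
              rw [ziter_succ']
              show (zstep (cw (.g, q) (false :: p))).getD _ = _
              rw [h1, hS]
              rfl
            | succ n ih =>
              rw [ziter_succ', ih, hfix]
              rfl
          cases N with
          | zero =>
            have : zstep (cw (.g, q) (false :: p)) = none := hN
            rw [h1] at this
            simp at this
          | succ N =>
            rw [hall, hfix] at hN
            simp at hN
        · intro x' h h'
          simp only [nst, hq, if_false, Option.some.injEq] at h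
          subst h
          exact absurd rfl h'

/-- the letters of a word of the program -/
theorem run_list : ∀ (a b : List Bool) (x : NC × List Bool), inv x → bp (a ++ b) = false →
    (∀ x', nrun a x = some x' → x'.1 ≠ .s → Zn (cw x (a ++ b)) (cw x' (b ++ a)) ∧
      (a ≠ [] → Zp (cw x (a ++ b)) (cw x' (b ++ a))) ∧ inv x' ∧
      2 * x.2.length + wt x.1 + a.count true ≤ 2 * x'.2.length + wt x'.1) ∧
    (∀ x', nrun a x = some x' → x'.1 = .s → ¬ ZHalts (cw x (a ++ b))) ∧
    (nrun a x = none → ∃ c, Zn (cw x (a ++ b)) c ∧ zstep c = none ∧ x.2.length ≤ c.q.length) := by
  intro a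
  induction a with
  | nil =>
    intro b x hx _
    refine ⟨?_, ?_, ?_⟩
    · intro x' h _
      simp only [nrun, Option.some.injEq] at h
      subst h
      simp only [List.nil_append, List.append_nil]
      exact ⟨Zn.refl _, fun h => absurd rfl h, hx, by simp⟩
    · intro x' h h'
      simp only [nrun, Option.some.injEq] at h
      subst h
      obtain ⟨cl, q⟩ := x
      subst h'
      exact absurd hx (by simp [inv])
    · intro h
      simp [nrun] at h
  | cons l a ih =>
    intro b x hx hp
    obtain ⟨s1, s2, s3⟩ := step_ok x l (a ++ b) hx hp
    cases hn : nst x.1 l x.2 with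
    | none =>
      have e : nrun (l :: a) x = none := by simp [nrun, hn]
      refine ⟨fun x' h => by rw [e] at h; simp at h, fun x' h => by rw [e] at h; simp at h, fun _ => ?_⟩
      obtain ⟨h1, h2⟩ := s1 hn
      exact ⟨_, Zn.refl _, h1, h2⟩
    | some x1 =>
      have e : nrun (l :: a) x = nrun a x1 := by simp [nrun, hn]
      by_cases hs : x1.1 = .s
      · have hst := s2 x1 hn hs
        have hall : ∀ (a : List Bool), nrun a x1 = some x1 := by
          intro a
          obtain ⟨cl, q⟩ := x1
          subst hs
          induction a with
          | nil => rfl
          | cons l a iha => simpa [nrun, nst] using iha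
        refine ⟨?_, ?_, ?_⟩
        · intro x' h h'
          rw [e, hall, Option.some.injEq] at h
          subst h
          exact absurd hs h'
        · intro x' _ _
          exact hst
        · intro h
          rw [e, hall] at h
          simp at h
      · obtain ⟨h1, h2, h3⟩ := s3 x1 hn hs
        have e1 : (a ++ b) ++ [l] = a ++ (b ++ [l]) := by simp
        have e2 : (b ++ [l]) ++ a = b ++ l :: a := by simp
        have hp' : bp (a ++ (b ++ [l])) = false := by
          rw [← hp]
          simp only [List.cons_append, bp_cons, bp_app]
          have : bp [] = false := rfl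
          rw [this]
          cases bp a <;> cases bp b <;> cases l <;> rfl
        obtain ⟨t1, t2, t3⟩ := ih (b ++ [l]) x1 h2 hp'
        rw [e1] at h1
        rw [e2] at t1
        rw [e]
        refine ⟨?_, ?_, ?_⟩
        · intro x' h h'
          obtain ⟨r1, _, r3, r4⟩ := t1 x' h h'
          refine ⟨h1.n.trans r1, fun _ => h1.trans_n r1, r3, ?_⟩
          rw [List.count_cons]
          simp only [beq_iff_eq]
          omega
        · intro x' h h'
          rintro ⟨N, hN⟩
          apply t2 x' h h'
          obtain ⟨n, hn'⟩ := h1
          have hle : zstep (ziter (N + (n + 1)) (cw x (l :: (a ++ b)))) = none := by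
            have key : ∀ j, zstep (ziter (N + j) (cw x (l :: (a ++ b)))) = none := by
              intro j
              induction j with
              | zero => exact hN
              | succ j ihj =>
                rw [← Nat.add_assoc, ziter_succ', ihj]
                exact ihj
            exact key (n + 1)
          refine ⟨N, ?_⟩
          rw [ziter_add, hn'] at hle
          exact hle
        · intro h
          obtain ⟨c, r1, r2, r3⟩ := t3 h
          refine ⟨c, h1.n.trans r1, r2, ?_⟩
          have : wt x1.1 ≤ 1 := by cases x1.1 <;> simp [wt]
          omega

theorem halted (c : ZC) (h : zstep c = none) (n : ℕ) : ziter n c = c := by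
  induction n with
  | zero => rfl
  | succ n ih =>
    rw [ziter_succ', ih, h]
    rfl

theorem halted_unique (c : ZC) (m n : ℕ) (hm : zstep (ziter m c) = none)
    (hn : zstep (ziter n c) = none) : ziter m c = ziter n c := by
  rcases Nat.le_total m n with h | h
  · obtain ⟨j, rfl⟩ := Nat.exists_eq_add_of_le h
    rw [Nat.add_comm m j, ziter_add, halted _ hm]
  · obtain ⟨j, rfl⟩ := Nat.exists_eq_add_of_le h
    rw [Nat.add_comm n j, ziter_add, halted _ hn]

theorem nround_none (w : List Bool) : nround w none = none := rfl

theorem nrun_s : ∀ (w q : List Bool), nrun w (.s, q) = some (.s, q) := by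
  intro w
  induction w with
  | nil => intro q; rfl
  | cons l w ih => intro q; simpa [nrun, nst] using ih q

/-- rounds -/
theorem rounds (w : List Bool) (hw : w ≠ []) (hp : bp w = false) (x : NC × List Bool) (hx : inv x) (m : ℕ) :
    ∀ x' : NC × List Bool, (nround w)^[m] (some x) = some x' →
      (x'.1 ≠ .s → ∃ n, m ≤ n ∧ ziter n (cw x w) = cw x' w ∧ inv x' ∧
        2 * x.2.length + wt x.1 + m * w.count true ≤ 2 * x'.2.length + wt x'.1) ∧
      (x'.1 = .s → ¬ ZHalts (cw x w)) := by
  induction m with
  | zero =>
    intro x' h
    simp only [Function.iterate_zero, id_eq, Option.some.injEq] at h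
    subst h
    refine ⟨fun _ => ⟨0, le_rfl, rfl, hx, by simp⟩, fun h => ?_⟩
    obtain ⟨cl, q⟩ := x
    subst h
    exact absurd hx (by simp [inv])
  | succ m ih =>
    intro x' h
    rw [Function.iterate_succ_apply'] at h
    cases hm : (nround w)^[m] (some x) with
    | none =>
      rw [hm, nround_none] at h
      simp at h
    | some x1 =>
      rw [hm] at h
      have h' : nrun w x1 = some x' := h
      obtain ⟨i1, i2⟩ := ih x1 hm
      by_cases hs : x1.1 = .s
      · have e : x' = x1 := by
          obtain ⟨cl, q⟩ := x1
          subst hs
          rw [nrun_s, Option.some.injEq] at h'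
          exact h'.symm
        subst e
        exact ⟨fun h => absurd hs h, i2⟩
      · obtain ⟨n, hn, e, hx1, hl⟩ := i1 hs
        have hp' : bp (w ++ []) = false := by rwa [List.append_nil]
        obtain ⟨t1, t2, _⟩ := run_list w [] x1 hx1 hp'
        refine ⟨fun hs' => ?_, fun hs' => ?_⟩
        · obtain ⟨_, r2, r3, r4⟩ := t1 x' h' hs'
          obtain ⟨n', hn'⟩ := r2 hw
          rw [List.append_nil, List.nil_append] at hn'
          refine ⟨n' + 1 + n, by omega, ?_, r3, ?_⟩
          · rw [ziter_add, e, hn']
          · have e3 : (m + 1) * w.count true = m * w.count true + w.count true := by ring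
            omega
        · have hno := t2 x' h' hs'
          rw [List.append_nil, ← e] at hno
          rintro ⟨N, hN⟩
          apply hno
          refine ⟨N, ?_⟩
          rw [← ziter_add, Nat.add_comm, ziter_add, halted _ hN]
          exact hN

theorem halting (w : List Bool) (hw : w ≠ []) (hp : bp w = false) (hc : 2 ≤ w.count true)
    (q : List Bool) (hx : inv (.c, q)) (h : NHalts w (.c, q)) :
    ∃ m n : ℕ, (nround w)^[m] (some (.c, q)) = none ∧ zstep (ziter n (cw (.c, q) w)) = none ∧
      m ≤ (ziter n (cw (.c, q) w)).q.length := by
  classical
  have hm := Nat.find_spec h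
  have hmin := fun j => Nat.find_min h (m := j)
  set m := Nat.find h with hmdef
  cases hm0 : m with
  | zero =>
    rw [hm0] at hm
    simp at hm
  | succ m' =>
    rw [hm0] at hm
    have h1 := hmin m' (by omega)
    cases hq1 : (nround w)^[m'] (some (NC.c, q)) with
    | none => exact absurd hq1 h1
    | some x1 =>
      rw [Function.iterate_succ_apply', hq1] at hm
      have hm' : nrun w x1 = none := hm
      obtain ⟨i1, _⟩ := rounds w hw hp (.c, q) hx m' x1 hq1
      have hs : x1.1 ≠ .s := by
        intro hs
        obtain ⟨cl, q1⟩ := x1
        simp only at hs
        subst hs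
        rw [nrun_s] at hm'
        simp at hm'
      obtain ⟨n, _, e, hx1, hl⟩ := i1 hs
      have hp' : bp (w ++ []) = false := by rwa [List.append_nil]
      obtain ⟨c, ⟨n', hn'⟩, h3, h4⟩ := (run_list w [] x1 hx1 hp').2.2 hm'
      rw [List.append_nil] at hn'
      have e2 : ziter (n' + n) (cw (.c, q) w) = c := by rw [ziter_add, e, hn']
      refine ⟨m' + 1, n' + n, ?_, ?_, ?_⟩
      · rw [Function.iterate_succ_apply', hq1]
        exact hm
      · rw [e2]
        exact h3
      · rw [e2]
        have hq : 1 ≤ q.length := List.length_pos_iff.mpr hx.2
        have h5 : 2 * m' ≤ m' * w.count true := by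
          rw [Nat.mul_comm]
          exact Nat.mul_le_mul_left _ hc
        have h6 : wt x1.1 ≤ 1 := by cases x1.1 <;> simp [wt]
        simp only at hl
        omega

theorem not_halting (w : List Bool) (hw : w ≠ []) (hp : bp w = false) (q : List Bool) (hx : inv (.c, q))
    (h : ZHalts (cw (.c, q) w)) : NHalts w (.c, q) := by
  by_contra hno
  obtain ⟨N, hN⟩ := h
  cases hr : (nround w)^[N] (some (NC.c, q)) with
  | none => exact hno ⟨N, hr⟩
  | some x' =>
    obtain ⟨i1, i2⟩ := rounds w hw hp (.c, q) hx N x' hr
    by_cases hs : x'.1 = .s
    · exact i2 hs ⟨N, hN⟩
    · obtain ⟨n, hn, e, hx', _⟩ := i1 hs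
      obtain ⟨j, rfl⟩ := Nat.exists_eq_add_of_le hn
      rw [Nat.add_comm N j, ziter_add, halted _ hN] at e
      rw [e] at hN
      apply hno
      refine ⟨N + 1, ?_⟩
      rw [Function.iterate_succ_apply', hr]
      show nrun w x' = none
      obtain ⟨b, p, rfl⟩ : ∃ b p, w = b :: p := by
        cases w with
        | nil => exact absurd rfl hw
        | cons b p => exact ⟨b, p, rfl⟩
      obtain ⟨s1, s2, s3⟩ := step_ok x' b p hx' hp
      cases hn' : nst x'.1 b x'.2 with
      | none => simp [nrun, hn']
      | some x1 =>
        exfalso
        by_cases hs1 : x1.1 = .s
        · exact s2 x1 hn' hs1 ⟨0, hN⟩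
        · obtain ⟨hg, hh⟩ := zstep_none _ hN
          obtain ⟨cl, q'⟩ := x'
          have hb : b = false := hh
          subst hb
          cases cl with
          | a => simp [nst] at hn'
          | c => simp [cw, nd] at hg
          | g => simp [cw, nd] at hg
          | s => exact hs rfl

theorem Zhalts_iff (w : List Bool) (hw : w ≠ []) (hp : bp w = false) (hc : 2 ≤ w.count true)
    (q : List Bool) (hx : inv (.c, q)) : ZHalts (cw (.c, q) w) ↔ NHalts w (.c, q) := by
  refine ⟨not_halting w hw hp q hx, fun h => ?_⟩
  obtain ⟨_, n, _, h2, _⟩ := halting w hw hp hc q hx h
  exact ⟨n, h2⟩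

theorem Zhalts_bound (w : List Bool) (hw : w ≠ []) (hp : bp w = false) (hc : 2 ≤ w.count true)
    (q : List Bool) (hx : inv (.c, q)) (N : ℕ) (hN : zstep (ziter N (cw (.c, q) w)) = none) :
    ∃ m ≤ (ziter N (cw (.c, q) w)).q.length, (nround w)^[m] (some (.c, q)) = none := by
  obtain ⟨m, n, h1, h2, h3⟩ := halting w hw hp hc q hx (not_halting w hw hp q hx ⟨N, hN⟩)
  have e := halted_unique _ N n hN h2
  exact ⟨m, by rw [e]; exact h3, h1⟩

end NMachAux

open NMachAux in
/-- Machines which execute the node system simulate the system N. -/
theorem nsimU_of_simZ {k n : ℕ} [NeZero k] [NeZero n] {U : TM k n} (h : SimZ U false) : NSimU U := by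
  obtain ⟨inp, dec, hinp, hdec, hU⟩ := h
  refine ⟨inp, dec, hinp, hdec, ?_⟩
  intro w q hw hwp hwl hwt hqp hql
  have hw' : w ≠ [] := by
    rintro rfl
    simp at hw
  have hq' : q ≠ [] := by
    rintro rfl
    simp at hql
  have hp : bp w = false := by
    rw [bp_count, decide_eq_false_iff_not]
    omega
  have hc : 2 ≤ w.count true := by
    have : 0 < w.count true := List.count_pos_iff.mpr hwt
    omega
  have hx : inv (.c, q) := by
    refine ⟨?_, hq'⟩
    rw [zp_count, decide_eq_false_iff_not]
    omega
  obtain ⟨h1, h2⟩ := hU w q hwl hq'
  refine ⟨h1.trans (Zhalts_iff w hw' hp hc q hx), ?_⟩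
  intro T hT
  obtain ⟨N, x, h3, h4, h5, h6⟩ := h2 T hT
  obtain ⟨m, hm1, hm2⟩ := Zhalts_bound w hw' hp hc q hx N h3
  exact ⟨x, h4, h5, m, le_trans hm1 h6, hm2⟩

end P913N
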