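import Pool.Agent.Lib.P913N.NCheck
import Pool.Agent.Lib.P913N.NMach

/-!
# A machine with 3 states and 6 symbols which executes the node system
-/

set_option autoImplicit false

namespace P913N

open P913

/-- The machine with 3 states and 6 symbols (helper4).  Symbols: `0` blank; letters of the right passes `1`, `3`, of the
left passes `2`, `0`; the left end is the word `4 0 4`; the nodes are words of length 2. -/
def U36 : TM 3 6 := ![
  ![(3, false, some 2), (2, true, some 0), (1, false, some 0), (2, true, some 1), (4, true, some 1), (2, true, some 2)],
  ![(0, false, some 2), (0, true, some 0), (5, true, some 1), (0, true, some 1), (2, true, some 1), (4, true, some 0)],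
  ![(3, false, some 0), (4, false, some 1), (1, false, some 2), (5, true, none), (5, false, some 2),
    (5, false, some 2)]]

/-- the words of `U36` -/
def D36 : NData 3 6 where
  qA := fun b => if b then 1 else 0
  qB := fun b => if b then 0 else 2
  cr := fun b => if b then [3] else [1]
  cl := fun b => if b then [0] else [2]
  E := [4, 0, 4]
  S := [4, 3, 5]
  h0 := false
  c := false
  o := 0
  W := fun
    | .n0 => [4, 2]
    | .n1 => [5, 1]
    | .n2 => [4, 0]
    | .n3 => [5, 2]
    | .n4 => [5, 3]
  FH := [2, 5]
  m := 1
  s := 1
  t := 12
  z := 2

theorem ok36 : NOk U36 D36 where
  m_pos := by decide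
  cl_len := by decide
  FH_cells := by decide
  FH_stop := by decide
  FH_len := by decide
  cr_nz := by decide
  E_ne := by decide
  ho := by decide
  passR := by decide
  passL := by decide
  lend := by decide
  start := by decide
  rend0 := by decide
  rend1 := by decide
  ok := by decide
  halt := by decide
  W_ne := by decide

/-- The machine `U36` simulates the system N. -/
theorem nsim36 : NSimU U36 := nsimU_of_simZ ok36.sim

end P913N
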