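import Pool.Agent.Lib.P913N.NCheck
import Pool.Agent.Lib.P913N.NMach

/-!
# A machine with 4 states and 4 symbols which executes the node system
-/

set_option autoImplicit false

namespace P913N

open P913

/-- The machine with 4 states and 4 symbols (helper4).  Symbols: `0` blank; letters of the right passes `2`, `3`, of the
left passes `1`, `0`; the left end is the word `2 0 2`; the nodes are words of length 2. -/
def U44 : TM 4 4 := ![
  ![(3, false, some 1), (2, false, some 0), (2, true, some 3), (3, true, none)],
  ![(3, false, some 0), (2, false, some 1), (1, false, some 1), (2, true, some 1)],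
  ![(3, false, some 1), (3, true, some 0), (1, true, some 2), (1, true, some 3)],
  ![(0, false, some 1), (2, true, some 2), (0, true, some 2), (0, true, some 3)]]

/-- the words of `U44` -/
def D44 : NData 4 4 where
  qA := fun b => if b then 3 else 2
  qB := fun b => if b then 0 else 1
  cr := fun b => if b then [3] else [2]
  cl := fun b => if b then [0] else [1]
  E := [2, 0, 2]
  S := [2, 3, 1]
  h0 := false
  c := false
  o := 0
  W := fun
    | .n0 => [2, 1]
    | .n1 => [1, 2]
    | .n2 => [2, 0]
    | .n3 => [3, 2]
    | .n4 => [1, 3]
  FH := [3, 3]
  m := 1
  s := 0
  t := 12
  z := 2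

theorem ok44 : NOk U44 D44 where
  m_pos := by decide
  cl_len := by decide
  FH_cells := by decide
  FH_stop := by decide
  FH_len := by decide
  cr_nz := by decide
  E_ne := by decide
  ho := by decide
  passR := by decide
  passL := by decide
  lend := by decide
  start := by decide
  rend0 := by decide
  rend1 := by decide
  ok := by decide
  halt := by decide
  W_ne := by decide

/-- The machine `U44` simulates the system N. -/
theorem nsim44 : NSimU U44 := nsimU_of_simZ ok44.sim

end P913N
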