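import Pool.Agent.Lib.P913N.NExi
import Pool.Agent.Lib.P913.KPrim

/-!
# Rounds of the system N are computable
-/

set_option autoImplicit false

namespace P913N

open P913

namespace NPrimAux

/-- the classes as numbers -/
def ncf : NC → Fin 4
  | .a => 0
  | .c => 1
  | .g => 2
  | .s => 3

/-- the classes from numbers -/
def nci : Fin 4 → NC
  | 0 => .a
  | 1 => .c
  | 2 => .g
  | 3 => .s

/-- the classes are four -/
def nce : NC ≃ Fin 4 where
  toFun := ncf
  invFun := nci
  left_inv := by intro x; cases x <;> rfl
  right_inv := by decide

end NPrimAux

instance : Primcodable NC := Primcodable.ofEquiv (Fin 4) NPrimAux.nce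

namespace NPrimAux

theorem rot_prim : Primrec fun q : List Bool => rotf 0 q := by
  have h : Primrec fun q : List Bool => (kstep 0 q).reverse.tail.tail.reverse :=
    Primrec.list_reverse.comp (Primrec.list_tail.comp (Primrec.list_tail.comp
      (Primrec.list_reverse.comp (kstep_prim.comp (Primrec.const 0) Primrec.id))))
  refine h.of_eq fun q => ?_
  simp [kstep]

theorem snoc_prim (v : List Bool) : Primrec fun q : List Bool => q ++ v :=
  Primrec.list_append.comp Primrec.id (Primrec.const v)

theorem mem_prim : PrimrecPred fun q : List Bool => true ∈ q := by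
  have h : PrimrecPred fun q : List Bool => q.idxOf true < q.length :=
    Primrec.nat_lt.comp (Primrec.list_idxOf.comp (Primrec.const true) Primrec.id) Primrec.list_length
  exact h.of_eq fun q => List.idxOf_lt_length_iff

/-- the system N without pattern matching -/
theorem nst_eq (cl : NC) (b : Bool) (q : List Bool) : nst cl b q =
    if cl = NC.a then (if b = true then some (NC.c, q ++ [false]) else none)
    else if cl = NC.c then
      (if q = [] then some (NC.s, [])
      else if b = true then
        (if q.headI = true then some (NC.g, q.tail ++ [true]) else some (NC.a, rotf 0 (q.tail ++ [true, true])))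
      else (if q.headI = true then some (NC.c, q.tail ++ [false, false]) else some (NC.c, q.tail ++ [false])))
    else if cl = NC.g then
      (if b = true then some (NC.c, q ++ [true])
      else if true ∈ q then some (NC.g, rotf 0 (q ++ [false, false])) else some (NC.s, q))
    else some (NC.s, q) := by
  cases cl
  · cases b <;> rfl
  · cases q with
    | nil => cases b <;> rfl
    | cons z t => cases b <;> cases z <;> rfl
  · cases b <;> rfl
  · cases b <;> rfl

theorem nst_prim : Primrec fun p : NC × Bool × List Bool => nst p.1 p.2.1 p.2.2 := by
  have hcl : Primrec fun p : NC × Bool × List Bool => p.1 := Primrec.fst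
  have hb : Primrec fun p : NC × Bool × List Bool => p.2.1 := Primrec.fst.comp Primrec.snd
  have hq : Primrec fun p : NC × Bool × List Bool => p.2.2 := Primrec.snd.comp Primrec.snd
  have ht : Primrec fun p : NC × Bool × List Bool => p.2.2.tail := Primrec.list_tail.comp hq
  have hh : Primrec fun p : NC × Bool × List Bool => p.2.2.headI := Primrec.list_headI.comp hq
  have mk : ∀ (c : NC) {f : NC × Bool × List Bool → List Bool}, Primrec f →
      Primrec fun p => (some (c, f p) : Option (NC × List Bool)) := fun c f hf =>
    Primrec.option_some.comp (Primrec.pair (Primrec.const c) hf)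
  have sn : ∀ (v : List Bool) {f : NC × Bool × List Bool → List Bool}, Primrec f →
      Primrec fun p => f p ++ v := fun v f hf => (snoc_prim v).comp hf
  have pb : PrimrecPred fun p : NC × Bool × List Bool => p.2.1 = true := Primrec.eq.comp hb (Primrec.const true)
  have ph : PrimrecPred fun p : NC × Bool × List Bool => p.2.2.headI = true :=
    Primrec.eq.comp hh (Primrec.const true)
  have pc : ∀ c : NC, PrimrecPred fun p : NC × Bool × List Bool => p.1 = c := fun c =>
    Primrec.eq.comp hcl (Primrec.const c)
  have h := Primrec.ite (pc NC.a) (Primrec.ite pb (mk NC.c (sn [false] hq)) (Primrec.const none))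
    (Primrec.ite (pc NC.c)
      (Primrec.ite (Primrec.eq.comp hq (Primrec.const [])) (mk NC.s (Primrec.const []))
        (Primrec.ite pb
          (Primrec.ite ph (mk NC.g (sn [true] ht)) (mk NC.a (rot_prim.comp (sn [true, true] ht))))
          (Primrec.ite ph (mk NC.c (sn [false, false] ht)) (mk NC.c (sn [false] ht)))))
      (Primrec.ite (pc NC.g)
        (Primrec.ite pb (mk NC.c (sn [true] hq))
          (Primrec.ite (mem_prim.comp hq) (mk NC.g (rot_prim.comp (sn [false, false] hq))) (mk NC.s hq)))
        (mk NC.s hq)))
  exact h.of_eq fun p => (nst_eq p.1 p.2.1 p.2.2).symm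

/-- one step of the fold -/
def nfold (o : Option (NC × List Bool)) (b : Bool) : Option (NC × List Bool) := o.bind fun x => nst x.1 b x.2

theorem foldl_none (w : List Bool) : w.foldl nfold none = none := by
  induction w with
  | nil => rfl
  | cons b w ih => exact ih

theorem nrun_eq (w : List Bool) : ∀ x, nrun w x = w.foldl nfold (some x) := by
  induction w with
  | nil => intro x; rfl
  | cons b w ih =>
    intro x
    rw [nrun, List.foldl_cons]
    have h1 : nfold (some x) b = nst x.1 b x.2 := rfl
    rw [h1]
    cases h : nst x.1 b x.2 with
    | none => rw [foldl_none]; rfl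
    | some y => rw [Option.bind_some, ih]

theorem nfold_prim : Primrec fun s : Option (NC × List Bool) × Bool => nfold s.1 s.2 := by
  refine Primrec.option_bind Primrec.fst ?_
  exact nst_prim.comp (Primrec.pair (Primrec.fst.comp Primrec.snd)
    (Primrec.pair (Primrec.snd.comp Primrec.fst) (Primrec.snd.comp Primrec.snd)))

theorem nrun_prim : Primrec₂ nrun := by
  have h : Primrec fun p : List Bool × NC × List Bool => p.1.foldl (fun s b => nfold s b) (some p.2) :=
    Primrec.list_foldl (h := fun (_ : List Bool × NC × List Bool) s => nfold s.1 s.2) Primrec.fst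
      (Primrec.option_some.comp Primrec.snd) (nfold_prim.comp Primrec.snd).to₂
  exact Primrec.of_eq h fun p => (nrun_eq p.1 p.2).symm

end NPrimAux

open NPrimAux

/-- the system halts after at most `p.2.1` rounds -/
theorem nrounds_prim : Primrec fun p : List Bool × ℕ × NC × List Bool =>
    ((nround p.1)^[p.2.1] (some p.2.2)).isNone := by
  have h1 : Primrec fun x : (List Bool × ℕ × NC × List Bool) × Option (NC × List Bool) =>
      nround x.1.1 x.2 :=
    Primrec.option_bind Primrec.snd
      (nrun_prim.comp (Primrec.fst.comp (Primrec.fst.comp Primrec.fst)) Primrec.snd).to₂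
  have h2 : Primrec fun p : List Bool × ℕ × NC × List Bool =>
      (nround p.1)^[p.2.1] (some p.2.2) :=
    Primrec.nat_iterate (h := fun (p : List Bool × ℕ × NC × List Bool) o => nround p.1 o)
      (Primrec.fst.comp Primrec.snd)
      (Primrec.option_some.comp (Primrec.snd.comp Primrec.snd)) h1.to₂
  exact (Primrec.not.comp (Primrec.option_isSome.comp h2)).of_eq fun p => Option.not_isSome _

theorem nwd_prim (w0 : List Bool) : Primrec fun c : ℕ => nwd w0 c := by
  have h : Primrec fun c : ℕ => w0 ++ (((List.range c).flatMap fun _ => nopw) ++ [true, false]) :=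
    Primrec.list_append.comp (Primrec.const w0) (Primrec.list_append.comp
      (Primrec.list_flatMap Primrec.list_range (Primrec.const nopw).to₂) (Primrec.const [true, false]))
  refine h.of_eq fun c => ?_
  unfold nwd
  rw [List.flatMap_def, List.map_const', List.length_range]

end P913N
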