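import Pool.Agent.Lib.P913N.NSlot

/-!
# One round of the program (system N)
-/

set_option autoImplicit false

namespace P913N

open P913

variable {N : ℕ} (P : Fin N → CI (Fin N))

theorem nslots_run (t : ℕ) (ht : t ≤ N) (Y J : ℕ) (v : ℕ × ℕ × ℕ) (q : Fin N) (hJ : J < N) (hq : (t + J) % N = q)
    (hY : 2 * gg N + 3 * N + 3 ≤ Y + 3 * J) :
    (nb (((List.finRange N).drop t).flatMap (nslot P)) (rn N Y J v) = none ∧ CtHalts P (q, v)) ∨
      ∃ (Y' : ℕ) (s' : Fin N × ℕ × ℕ × ℕ) (j : ℕ), (t + J < N → 1 ≤ j) ∧ (ctt P)^[j] (q, v) = s' ∧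
        (∀ i < j, ctStep P ((ctt P)^[i] (q, v)) ≠ none) ∧
        nb (((List.finRange N).drop t).flatMap (nslot P)) (rn N Y J v) = some (rn N Y' s'.1 s'.2) ∧
        2 * gg N + 3 * N + 3 ≤ Y' + 3 * s'.1 := by
  obtain ⟨k, hk⟩ : ∃ k, k = N - t := ⟨_, rfl⟩
  induction k generalizing t Y J v q with
  | zero =>
    have htN : t = N := by omega
    subst htN
    have hd : (List.finRange t).drop t = [] := by
      rw [List.drop_eq_nil_iff, List.length_finRange]
    have hqJ : (q : ℕ) = J := by
      rw [← hq, Nat.add_mod_left, Nat.mod_eq_of_lt hJ]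
    right
    refine ⟨Y, (q, v), 0, fun h => by omega, rfl, fun i hi => by omega, ?_, ?_⟩
    · rw [hd]
      simp only [List.flatMap_nil, nb_nil, hqJ]
    · simp only [hqJ]
      exact hY
  | succ k ih =>
    have htN : t < N := by omega
    have hd : (List.finRange N).drop t = ⟨t, htN⟩ :: (List.finRange N).drop (t + 1) := by
      rw [List.drop_eq_getElem_cons (by rw [List.length_finRange]; exact htN)]
      simp
    rw [hd, List.flatMap_cons, nb_append]
    rcases J with _ | J1
    · -- `J = 0`
      have hqt : q = ⟨t, htN⟩ := by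
        apply Fin.ext
        rw [← hq, Nat.add_zero, Nat.mod_eq_of_lt htN]
      subst hqt
      rcases hs : ctStep P (⟨t, htN⟩, v) with _ | s1
      · left
        have hsem : slotsem P ⟨t, htN⟩ 0 v = none := by
          simp only [slotsem, hs, Option.map_none]
        have h1 := nslot_none P ⟨t, htN⟩ Y 0 v hJ hY hsem
        refine ⟨?_, 0, ?_⟩
        · rw [h1]
          rfl
        · exact hs
      · have hsem : slotsem P ⟨t, htN⟩ 0 v = some (dst N t s1.1, s1.2) := by
          simp only [slotsem, hs, Option.map_some]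
        obtain ⟨hJ', Y1, hb, hY1⟩ := nslot_some P ⟨t, htN⟩ Y 0 _ v _ hJ hY hsem
        have hq1 : (t + 1 + dst N t s1.1) % N = s1.1 := by
          have h2 : (s1.1 : ℕ) < N := s1.1.isLt
          unfold dst
          rw [Nat.add_mod_mod]
          have h3 : t + 1 + ((s1.1 : ℕ) + N - (t + 1)) = s1.1 + N := by omega
          rw [h3, Nat.add_mod_right, Nat.mod_eq_of_lt h2]
        have hct : ctt P (⟨t, htN⟩, v) = s1 := by
          unfold ctt
          rw [hs]
          rfl
        rw [hb, Option.bind_some]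
        rcases ih (t + 1) (by omega) Y1 (dst N t s1.1) s1.2 s1.1 hJ' hq1 (by omega) (by omega) with
          ⟨h1, n, hn⟩ | ⟨Y2, s2, j, _, hj2, hj3, hj4, hj5⟩
        · left
          refine ⟨h1, n + 1, ?_⟩
          rw [Function.iterate_succ_apply]
          have h4 : (ctStep P (⟨t, htN⟩, v)).getD (⟨t, htN⟩, v) = s1 := hct
          rw [h4]
          exact hn
        · right
          refine ⟨Y2, s2, j + 1, fun _ => by omega, ?_, ?_, hj4, hj5⟩
          · rw [Function.iterate_succ_apply, hct]
            exact hj2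
          · intro i hi
            rcases i with _ | i
            · rw [Function.iterate_zero, id, hs]
              exact Option.some_ne_none s1
            · rw [Function.iterate_succ_apply, hct]
              exact hj3 i (by omega)
    · -- `J = J1 + 1`
      have hsem : slotsem P ⟨t, htN⟩ (J1 + 1) v = some (J1, v) := rfl
      obtain ⟨hJ', Y1, hb, hY1⟩ := nslot_some P ⟨t, htN⟩ Y (J1 + 1) _ v _ hJ hY hsem
      rw [hb, Option.bind_some]
      have hq1 : (t + 1 + J1) % N = q := by
        rw [← hq]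
        congr 1
        omega
      rcases ih (t + 1) (by omega) Y1 J1 v q hJ' hq1 (by omega) (by omega) with
        h1 | ⟨Y2, s2, j, hj1, hj2, hj3, hj4, hj5⟩
      · left
        exact h1
      · right
        exact ⟨Y2, s2, j, fun h => hj1 (by omega), hj2, hj3, hj4, hj5⟩

theorem nnops_run (c Y J : ℕ) (v : ℕ × ℕ × ℕ) :
    nb (List.replicate c nopn).flatten (rn N Y J v) = some (rn N (Y + 12 * c) J v) := by
  induction c generalizing Y with
  | zero => rfl
  | succ c ih =>
    rw [List.replicate_succ, List.flatten_cons, nb_append, nopn_run N Y J v, Option.bind_some, ih (Y + 12)]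
    congr 2
    ring

theorem nround_run (c Y : ℕ) (s : Fin N × ℕ × ℕ × ℕ) (hY : 2 * gg N + 3 * N + 3 ≤ Y + 3 * s.1) :
    (nb (nprog P c) (rn N Y s.1 s.2) = none ∧ CtHalts P s) ∨
      ∃ (Y' : ℕ) (s' : Fin N × ℕ × ℕ × ℕ) (j : ℕ), 1 ≤ j ∧ (ctt P)^[j] s = s' ∧
        (∀ i < j, ctStep P ((ctt P)^[i] s) ≠ none) ∧
        nb (nprog P c) (rn N Y s.1 s.2) = some (rn N Y' s'.1 s'.2) ∧
        2 * gg N + 3 * N + 3 ≤ Y' + 3 * s'.1 := by
  unfold nprog
  rw [nb_append, nopn_run, Option.bind_some, nb_append]
  have hs : (s.1 : ℕ) < N := s.1.isLt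
  have h0 := nslots_run P 0 (Nat.zero_le N) (Y + 12) s.1 s.2 s.1 hs
    (by rw [Nat.zero_add, Nat.mod_eq_of_lt hs]) (by omega)
  rw [List.drop_zero] at h0
  rcases h0 with ⟨h1, h2⟩ | ⟨Y2, s2, j, hj1, hj2, hj3, hj4, hj5⟩
  · left
    refine ⟨?_, h2⟩
    rw [h1]
    rfl
  · right
    refine ⟨Y2 + 12 * c, s2, j, hj1 (by omega), hj2, hj3, ?_, by omega⟩
    rw [hj4, Option.bind_some]
    exact nnops_run c Y2 s2.1 s2.2

theorem nround_kw (c : ℕ) (o : Option (NC × List Bool)) : nround (kw (nprog P c)) o = o.bind (nb (nprog P c)) := rfl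

theorem nprog_halts (c Y : ℕ) (s : Fin N × ℕ × ℕ × ℕ)
    (hY : 2 * gg N + 3 * N + 3 ≤ Y + 3 * s.1) :
    NHalts (kw (nprog P c)) (rn N Y s.1 s.2) ↔ CtHalts P s := by
  constructor
  · rintro ⟨m, hm⟩
    induction m generalizing Y s with
    | zero => simp at hm
    | succ m ih =>
      rcases nround_run P c Y s hY with ⟨_, h⟩ | ⟨Y', s', j, _, hs', _, hb, hY'⟩
      · exact h
      · rw [Function.iterate_succ_apply, nround_kw, Option.bind_some, hb] at hm
        obtain ⟨n, hn⟩ := ih Y' s' hY' hm
        refine ⟨n + j, ?_⟩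
        rw [Function.iterate_add_apply]
        change ctStep P ((fun s => (ctStep P s).getD s)^[n] ((ctt P)^[j] s)) = none
        rw [hs']
        exact hn
  · rintro ⟨n, hn⟩
    induction n using Nat.strong_induction_on generalizing Y s with
    | _ n ih =>
      rcases nround_run P c Y s hY with ⟨h, _⟩ | ⟨Y', s', j, hj, hs', hne, hb, hY'⟩
      · exact ⟨1, by rw [Function.iterate_one, nround_kw, Option.bind_some, h]⟩
      · have hjn : j ≤ n := by
          by_contra hlt
          exact hne n (by omega) hn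
        have hn' : ctStep P ((fun s => (ctStep P s).getD s)^[n - j] s') = none := by
          rw [← hs']
          change ctStep P ((ctt P)^[n - j] ((ctt P)^[j] s)) = none
          rw [← Function.iterate_add_apply, Nat.sub_add_cancel hjn]
          exact hn
        obtain ⟨m, hm⟩ := ih (n - j) (by omega) Y' s' hY' hn'
        exact ⟨m + 1, by rw [Function.iterate_succ_apply, nround_kw, Option.bind_some, hb]; exact hm⟩

end P913N
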