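import Pool.Agent.Lib.P913N.NRw

/-!
# Rows of the gap calculus of the system N
-/

set_option autoImplicit false

namespace P913N

open P913

theorem nrM (bs : List Bk) (c0 c1 c2 c3 c4 c5 k1 k2 k3 k4 k5 k6 : ℕ)
    (h1 : 1 ≤ k1) (h2 : k1 ≤ c1) (h3 : 1 ≤ k2) (h4 : k2 ≤ c2) (h5 : 1 ≤ k3) (h6 : k3 ≤ c3) (h7 : 1 ≤ k4) (h8 : k4 ≤
      c4) (h9 : 1 ≤ k5) (h10 : k5 ≤ c5) (h11 : 1 ≤ k6) (h12 : k6 ≤ c0 + k1 + 2) :
    nb (.M k1 :: .M k2 :: .M k3 :: .M k4 :: .M k5 :: .M k6 :: bs) (fa [c0, c1, c2, c3, c4, c5]) =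
      nb bs (fa [c0 + k1 + 2 - k6, c1 - k1 + k2 + 2, c2 - k2 + k3 + 2, c3 - k3 + k4 + 2, c4 - k4 + k5 + 2, c5 - k5 +
        k6 + 2]) := by
  rw [mM _ _ _ _ _ (by omega) (by omega)]
  simp only [List.cons_append, List.nil_append]
  rw [mM _ _ _ _ _ (by omega) (by omega)]
  simp only [List.cons_append, List.nil_append]
  rw [mM _ _ _ _ _ (by omega) (by omega)]
  simp only [List.cons_append, List.nil_append]
  rw [mM _ _ _ _ _ (by omega) (by omega)]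
  simp only [List.cons_append, List.nil_append]
  rw [mM _ _ _ _ _ (by omega) (by omega)]
  simp only [List.cons_append, List.nil_append]
  rw [mM _ _ _ _ _ (by omega) (by omega)]
  simp only [List.cons_append, List.nil_append]

theorem nr2z (bs : List Bk) (c0 c1 c2 c3 c4 c5 k1 k2 k3 k4 k5 k6 : ℕ)
    (h1 : 1 ≤ k1) (h2 : k1 ≤ c1) (h3 : 1 ≤ k2) (h4 : k2 ≤ c2) (h5 : 1 ≤ k3) (h6 : k3 ≤ c3) (h7 : 1 ≤ k4) (h8 : k4 ≤
      c4) (h9 : 1 ≤ k5) (h10 : k5 ≤ c5) (h11 : k6 + 1 ≤ c0 + k1 + 2) :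
    nb (.M k1 :: .M k2 :: .M k3 :: .M k4 :: .M k5 :: .Z k6 :: bs) (fa [c0, c1, c2, c3, c4, c5]) =
      nb bs (fa [c0 + k1 + 2 - k6 - 1, c1 - k1 + k2 + 2, c2 - k2 + k3 + 2, c3 - k3 + k4 + 2, c4 - k4 + k5 + 2, c5 -
        k5 + 1, k6]) := by
  rw [mM _ _ _ _ _ (by omega) (by omega)]
  simp only [List.cons_append, List.nil_append]
  rw [mM _ _ _ _ _ (by omega) (by omega)]
  simp only [List.cons_append, List.nil_append]
  rw [mM _ _ _ _ _ (by omega) (by omega)]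
  simp only [List.cons_append, List.nil_append]
  rw [mM _ _ _ _ _ (by omega) (by omega)]
  simp only [List.cons_append, List.nil_append]
  rw [mM _ _ _ _ _ (by omega) (by omega)]
  simp only [List.cons_append, List.nil_append]
  rw [mZ _ _ _ _ _ (by omega)]
  simp only [List.cons_append, List.nil_append]

theorem nr3z (bs : List Bk) (c0 c1 c2 c3 c4 c5 c6 k1 k2 k3 k4 k5 k6 : ℕ)
    (h1 : 1 ≤ k1) (h2 : k1 ≤ c1) (h3 : 1 ≤ k2) (h4 : k2 ≤ c2) (h5 : 1 ≤ k3) (h6 : k3 ≤ c3) (h7 : 1 ≤ k4) (h8 : k4 ≤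
      c4) (h9 : 1 ≤ k5) (h10 : k5 ≤ c5) (h11 : c6 + 3 ≤ k6) (h12 : k6 ≤ c6 + (c0 + k1 + 2) + 2) :
    nb (.M k1 :: .M k2 :: .M k3 :: .M k4 :: .M k5 :: .M k6 :: bs) (fa [c0, c1, c2, c3, c4, c5, c6]) =
      nb bs (fa [c6 + (c0 + k1 + 2) + 2 - k6, c1 - k1 + k2 + 2, c2 - k2 + k3 + 2, c3 - k3 + k4 + 2, c4 - k4 + k5 + 2,
        c5 - k5 + k6 + 4]) := by
  rw [mM _ _ _ _ _ (by omega) (by omega)]
  simp only [List.cons_append, List.nil_append]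
  rw [mM _ _ _ _ _ (by omega) (by omega)]
  simp only [List.cons_append, List.nil_append]
  rw [mM _ _ _ _ _ (by omega) (by omega)]
  simp only [List.cons_append, List.nil_append]
  rw [mM _ _ _ _ _ (by omega) (by omega)]
  simp only [List.cons_append, List.nil_append]
  rw [mM _ _ _ _ _ (by omega) (by omega)]
  simp only [List.cons_append, List.nil_append]
  rw [mP _ _ _ _ _ _ (by omega) (by omega)]
  simp only [List.cons_append, List.nil_append]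

theorem nr1z1 (bs : List Bk) (c0 c1 c2 c3 c4 c5 k1 k2 k3 k4 k5 : ℕ)
    (h1 : c1 + 2 ≤ k1) (h2 : k1 ≤ c1 + c2 + 1) (h3 : 1 ≤ k2) (h4 : k2 ≤ c3) (h5 : 1 ≤ k3) (h6 : k3 ≤ c4) (h7 : 1 ≤
      k4) (h8 : k4 ≤ c5) (h9 : 1 ≤ k5) (h10 : k5 ≤ c0 + 1) :
    nb (.Z k1 :: .M k2 :: .M k3 :: .M k4 :: .M k5 :: bs) (fa [c0, c1, c2, c3, c4, c5]) =
      nb bs (fa [c0 + 1 - k5, k1 + 2, c1 + c2 + 1 - k1 + k2 + 2, c3 - k2 + k3 + 2, c4 - k3 + k4 + 2, c5 - k4 + k5 +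
        2]) := by
  rw [mC _ _ _ _ _ _ (by omega) (by omega)]
  simp only [List.cons_append, List.nil_append]
  rw [mM _ _ _ _ _ (by omega) (by omega)]
  simp only [List.cons_append, List.nil_append]
  rw [mM _ _ _ _ _ (by omega) (by omega)]
  simp only [List.cons_append, List.nil_append]
  rw [mM _ _ _ _ _ (by omega) (by omega)]
  simp only [List.cons_append, List.nil_append]
  rw [mM _ _ _ _ _ (by omega) (by omega)]
  simp only [List.cons_append, List.nil_append]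

theorem nr1z2 (bs : List Bk) (c0 c1 c2 c3 c4 c5 k1 k2 k3 k4 k5 : ℕ)
    (h1 : 1 ≤ k1) (h2 : k1 ≤ c1) (h3 : c2 + 2 ≤ k2) (h4 : k2 ≤ c2 + c3 + 1) (h5 : 1 ≤ k3) (h6 : k3 ≤ c4) (h7 : 1 ≤
      k4) (h8 : k4 ≤ c5) (h9 : 1 ≤ k5) (h10 : k5 ≤ c0 + k1 + 2) :
    nb (.M k1 :: .Z k2 :: .M k3 :: .M k4 :: .M k5 :: bs) (fa [c0, c1, c2, c3, c4, c5]) =
      nb bs (fa [c0 + k1 + 2 - k5, c1 - k1 + 1, k2 + 2, c2 + c3 + 1 - k2 + k3 + 2, c4 - k3 + k4 + 2, c5 - k4 + k5 +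
        2]) := by
  rw [mM _ _ _ _ _ (by omega) (by omega)]
  simp only [List.cons_append, List.nil_append]
  rw [mC _ _ _ _ _ _ (by omega) (by omega)]
  simp only [List.cons_append, List.nil_append]
  rw [mM _ _ _ _ _ (by omega) (by omega)]
  simp only [List.cons_append, List.nil_append]
  rw [mM _ _ _ _ _ (by omega) (by omega)]
  simp only [List.cons_append, List.nil_append]
  rw [mM _ _ _ _ _ (by omega) (by omega)]
  simp only [List.cons_append, List.nil_append]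

theorem nr1z3 (bs : List Bk) (c0 c1 c2 c3 c4 c5 k1 k2 k3 k4 k5 : ℕ)
    (h1 : 1 ≤ k1) (h2 : k1 ≤ c1) (h3 : 1 ≤ k2) (h4 : k2 ≤ c2) (h5 : c3 + 2 ≤ k3) (h6 : k3 ≤ c3 + c4 + 1) (h7 : 1 ≤
      k4) (h8 : k4 ≤ c5) (h9 : 1 ≤ k5) (h10 : k5 ≤ c0 + k1 + 2) :
    nb (.M k1 :: .M k2 :: .Z k3 :: .M k4 :: .M k5 :: bs) (fa [c0, c1, c2, c3, c4, c5]) =
      nb bs (fa [c0 + k1 + 2 - k5, c1 - k1 + k2 + 2, c2 - k2 + 1, k3 + 2, c3 + c4 + 1 - k3 + k4 + 2, c5 - k4 + k5 +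
        2]) := by
  rw [mM _ _ _ _ _ (by omega) (by omega)]
  simp only [List.cons_append, List.nil_append]
  rw [mM _ _ _ _ _ (by omega) (by omega)]
  simp only [List.cons_append, List.nil_append]
  rw [mC _ _ _ _ _ _ (by omega) (by omega)]
  simp only [List.cons_append, List.nil_append]
  rw [mM _ _ _ _ _ (by omega) (by omega)]
  simp only [List.cons_append, List.nil_append]
  rw [mM _ _ _ _ _ (by omega) (by omega)]
  simp only [List.cons_append, List.nil_append]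

theorem nr1z4 (bs : List Bk) (c0 c1 c2 c3 c4 c5 k1 k2 k3 k4 k5 : ℕ)
    (h1 : 1 ≤ k1) (h2 : k1 ≤ c1) (h3 : 1 ≤ k2) (h4 : k2 ≤ c2) (h5 : 1 ≤ k3) (h6 : k3 ≤ c3) (h7 : c4 + 2 ≤ k4) (h8 :
      k4 ≤ c4 + c5 + 1) (h9 : 1 ≤ k5) (h10 : k5 ≤ c0 + k1 + 2) :
    nb (.M k1 :: .M k2 :: .M k3 :: .Z k4 :: .M k5 :: bs) (fa [c0, c1, c2, c3, c4, c5]) =
      nb bs (fa [c0 + k1 + 2 - k5, c1 - k1 + k2 + 2, c2 - k2 + k3 + 2, c3 - k3 + 1, k4 + 2, c4 + c5 + 1 - k4 + k5 +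
        2]) := by
  rw [mM _ _ _ _ _ (by omega) (by omega)]
  simp only [List.cons_append, List.nil_append]
  rw [mM _ _ _ _ _ (by omega) (by omega)]
  simp only [List.cons_append, List.nil_append]
  rw [mM _ _ _ _ _ (by omega) (by omega)]
  simp only [List.cons_append, List.nil_append]
  rw [mC _ _ _ _ _ _ (by omega) (by omega)]
  simp only [List.cons_append, List.nil_append]
  rw [mM _ _ _ _ _ (by omega) (by omega)]
  simp only [List.cons_append, List.nil_append]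

theorem nr1n1 (bs : List Bk) (c0 c1 c2 c3 c4 c5 k1 k2 k3 k4 k5 k6 : ℕ)
    (h1 : k1 + 1 ≤ c1) (h2 : 1 ≤ k2) (h3 : k2 ≤ c2) (h4 : 1 ≤ k3) (h5 : k3 ≤ c3) (h6 : 1 ≤ k4) (h7 : k4 ≤ c4) (h8 : 1
      ≤ k5) (h9 : k5 ≤ c5) (h10 : 1 ≤ k6) (h11 : k6 ≤ c0 + 1) :
    nb (.Z k1 :: .M k2 :: .M k3 :: .M k4 :: .M k5 :: .M k6 :: bs) (fa [c0, c1, c2, c3, c4, c5]) =
      nb bs (fa [c0 + 1 - k6, k1, c1 - k1 - 1 + k2 + 2, c2 - k2 + k3 + 2, c3 - k3 + k4 + 2, c4 - k4 + k5 + 2, c5 - k5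
        + k6 + 2]) := by
  rw [mZ _ _ _ _ _ (by omega)]
  simp only [List.cons_append, List.nil_append]
  rw [mM _ _ _ _ _ (by omega) (by omega)]
  simp only [List.cons_append, List.nil_append]
  rw [mM _ _ _ _ _ (by omega) (by omega)]
  simp only [List.cons_append, List.nil_append]
  rw [mM _ _ _ _ _ (by omega) (by omega)]
  simp only [List.cons_append, List.nil_append]
  rw [mM _ _ _ _ _ (by omega) (by omega)]
  simp only [List.cons_append, List.nil_append]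
  rw [mM _ _ _ _ _ (by omega) (by omega)]
  simp only [List.cons_append, List.nil_append]

theorem nr1n2 (bs : List Bk) (c0 c1 c2 c3 c4 c5 k1 k2 k3 k4 k5 k6 : ℕ)
    (h1 : 1 ≤ k1) (h2 : k1 ≤ c1) (h3 : k2 + 1 ≤ c2) (h4 : 1 ≤ k3) (h5 : k3 ≤ c3) (h6 : 1 ≤ k4) (h7 : k4 ≤ c4) (h8 : 1
      ≤ k5) (h9 : k5 ≤ c5) (h10 : 1 ≤ k6) (h11 : k6 ≤ c0 + k1 + 2) :
    nb (.M k1 :: .Z k2 :: .M k3 :: .M k4 :: .M k5 :: .M k6 :: bs) (fa [c0, c1, c2, c3, c4, c5]) =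
      nb bs (fa [c0 + k1 + 2 - k6, c1 - k1 + 1, k2, c2 - k2 - 1 + k3 + 2, c3 - k3 + k4 + 2, c4 - k4 + k5 + 2, c5 - k5
        + k6 + 2]) := by
  rw [mM _ _ _ _ _ (by omega) (by omega)]
  simp only [List.cons_append, List.nil_append]
  rw [mZ _ _ _ _ _ (by omega)]
  simp only [List.cons_append, List.nil_append]
  rw [mM _ _ _ _ _ (by omega) (by omega)]
  simp only [List.cons_append, List.nil_append]
  rw [mM _ _ _ _ _ (by omega) (by omega)]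
  simp only [List.cons_append, List.nil_append]
  rw [mM _ _ _ _ _ (by omega) (by omega)]
  simp only [List.cons_append, List.nil_append]
  rw [mM _ _ _ _ _ (by omega) (by omega)]
  simp only [List.cons_append, List.nil_append]

theorem nr1n3 (bs : List Bk) (c0 c1 c2 c3 c4 c5 k1 k2 k3 k4 k5 k6 : ℕ)
    (h1 : 1 ≤ k1) (h2 : k1 ≤ c1) (h3 : 1 ≤ k2) (h4 : k2 ≤ c2) (h5 : k3 + 1 ≤ c3) (h6 : 1 ≤ k4) (h7 : k4 ≤ c4) (h8 : 1
      ≤ k5) (h9 : k5 ≤ c5) (h10 : 1 ≤ k6) (h11 : k6 ≤ c0 + k1 + 2) :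
    nb (.M k1 :: .M k2 :: .Z k3 :: .M k4 :: .M k5 :: .M k6 :: bs) (fa [c0, c1, c2, c3, c4, c5]) =
      nb bs (fa [c0 + k1 + 2 - k6, c1 - k1 + k2 + 2, c2 - k2 + 1, k3, c3 - k3 - 1 + k4 + 2, c4 - k4 + k5 + 2, c5 - k5
        + k6 + 2]) := by
  rw [mM _ _ _ _ _ (by omega) (by omega)]
  simp only [List.cons_append, List.nil_append]
  rw [mM _ _ _ _ _ (by omega) (by omega)]
  simp only [List.cons_append, List.nil_append]
  rw [mZ _ _ _ _ _ (by omega)]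
  simp only [List.cons_append, List.nil_append]
  rw [mM _ _ _ _ _ (by omega) (by omega)]
  simp only [List.cons_append, List.nil_append]
  rw [mM _ _ _ _ _ (by omega) (by omega)]
  simp only [List.cons_append, List.nil_append]
  rw [mM _ _ _ _ _ (by omega) (by omega)]
  simp only [List.cons_append, List.nil_append]

theorem nr1n4 (bs : List Bk) (c0 c1 c2 c3 c4 c5 k1 k2 k3 k4 k5 k6 : ℕ)
    (h1 : 1 ≤ k1) (h2 : k1 ≤ c1) (h3 : 1 ≤ k2) (h4 : k2 ≤ c2) (h5 : 1 ≤ k3) (h6 : k3 ≤ c3) (h7 : k4 + 1 ≤ c4) (h8 : 1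
      ≤ k5) (h9 : k5 ≤ c5) (h10 : 1 ≤ k6) (h11 : k6 ≤ c0 + k1 + 2) :
    nb (.M k1 :: .M k2 :: .M k3 :: .Z k4 :: .M k5 :: .M k6 :: bs) (fa [c0, c1, c2, c3, c4, c5]) =
      nb bs (fa [c0 + k1 + 2 - k6, c1 - k1 + k2 + 2, c2 - k2 + k3 + 2, c3 - k3 + 1, k4, c4 - k4 - 1 + k5 + 2, c5 - k5
        + k6 + 2]) := by
  rw [mM _ _ _ _ _ (by omega) (by omega)]
  simp only [List.cons_append, List.nil_append]
  rw [mM _ _ _ _ _ (by omega) (by omega)]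
  simp only [List.cons_append, List.nil_append]
  rw [mM _ _ _ _ _ (by omega) (by omega)]
  simp only [List.cons_append, List.nil_append]
  rw [mZ _ _ _ _ _ (by omega)]
  simp only [List.cons_append, List.nil_append]
  rw [mM _ _ _ _ _ (by omega) (by omega)]
  simp only [List.cons_append, List.nil_append]
  rw [mM _ _ _ _ _ (by omega) (by omega)]
  simp only [List.cons_append, List.nil_append]

theorem nr2n1 (bs : List Bk) (c0 c1 c2 c3 c4 c5 c6 k1 k2 k3 k4 k5 : ℕ)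
    (h1 : c1 + 3 ≤ k1) (h2 : k1 ≤ c1 + c2 + 2) (h3 : 1 ≤ k2) (h4 : k2 ≤ c3) (h5 : 1 ≤ k3) (h6 : k3 ≤ c4) (h7 : 1 ≤
      k4) (h8 : k4 ≤ c5) (h9 : c6 + 2 ≤ k5) (h10 : k5 ≤ c6 + (c0 + k1 + 4) + 1) :
    nb (.M k1 :: .M k2 :: .M k3 :: .M k4 :: .Z k5 :: bs) (fa [c0, c1, c2, c3, c4, c5, c6]) =
      nb bs (fa [c6 + (c0 + k1 + 4) + 1 - k5, c1 + c2 + 2 - k1 + k2 + 2, c3 - k2 + k3 + 2, c4 - k3 + k4 + 2, c5 - k4
        + 1, k5 + 2]) := by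
  rw [mP _ _ _ _ _ _ (by omega) (by omega)]
  simp only [List.cons_append, List.nil_append]
  rw [mM _ _ _ _ _ (by omega) (by omega)]
  simp only [List.cons_append, List.nil_append]
  rw [mM _ _ _ _ _ (by omega) (by omega)]
  simp only [List.cons_append, List.nil_append]
  rw [mM _ _ _ _ _ (by omega) (by omega)]
  simp only [List.cons_append, List.nil_append]
  rw [mC _ _ _ _ _ _ (by omega) (by omega)]
  simp only [List.cons_append, List.nil_append]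

theorem nr2n2 (bs : List Bk) (c0 c1 c2 c3 c4 c5 c6 k1 k2 k3 k4 k5 : ℕ)
    (h1 : 1 ≤ k1) (h2 : k1 ≤ c1) (h3 : c2 + 3 ≤ k2) (h4 : k2 ≤ c2 + c3 + 2) (h5 : 1 ≤ k3) (h6 : k3 ≤ c4) (h7 : 1 ≤
      k4) (h8 : k4 ≤ c5) (h9 : c6 + 2 ≤ k5) (h10 : k5 ≤ c6 + (c0 + k1 + 2) + 1) :
    nb (.M k1 :: .M k2 :: .M k3 :: .M k4 :: .Z k5 :: bs) (fa [c0, c1, c2, c3, c4, c5, c6]) =
      nb bs (fa [c6 + (c0 + k1 + 2) + 1 - k5, c1 - k1 + k2 + 4, c2 + c3 + 2 - k2 + k3 + 2, c4 - k3 + k4 + 2, c5 - k4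
        + 1, k5 + 2]) := by
  rw [mM _ _ _ _ _ (by omega) (by omega)]
  simp only [List.cons_append, List.nil_append]
  rw [mP _ _ _ _ _ _ (by omega) (by omega)]
  simp only [List.cons_append, List.nil_append]
  rw [mM _ _ _ _ _ (by omega) (by omega)]
  simp only [List.cons_append, List.nil_append]
  rw [mM _ _ _ _ _ (by omega) (by omega)]
  simp only [List.cons_append, List.nil_append]
  rw [mC _ _ _ _ _ _ (by omega) (by omega)]
  simp only [List.cons_append, List.nil_append]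

theorem nr2n3 (bs : List Bk) (c0 c1 c2 c3 c4 c5 c6 k1 k2 k3 k4 k5 : ℕ)
    (h1 : 1 ≤ k1) (h2 : k1 ≤ c1) (h3 : 1 ≤ k2) (h4 : k2 ≤ c2) (h5 : c3 + 3 ≤ k3) (h6 : k3 ≤ c3 + c4 + 2) (h7 : 1 ≤
      k4) (h8 : k4 ≤ c5) (h9 : c6 + 2 ≤ k5) (h10 : k5 ≤ c6 + (c0 + k1 + 2) + 1) :
    nb (.M k1 :: .M k2 :: .M k3 :: .M k4 :: .Z k5 :: bs) (fa [c0, c1, c2, c3, c4, c5, c6]) =
      nb bs (fa [c6 + (c0 + k1 + 2) + 1 - k5, c1 - k1 + k2 + 2, c2 - k2 + k3 + 4, c3 + c4 + 2 - k3 + k4 + 2, c5 - k4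
        + 1, k5 + 2]) := by
  rw [mM _ _ _ _ _ (by omega) (by omega)]
  simp only [List.cons_append, List.nil_append]
  rw [mM _ _ _ _ _ (by omega) (by omega)]
  simp only [List.cons_append, List.nil_append]
  rw [mP _ _ _ _ _ _ (by omega) (by omega)]
  simp only [List.cons_append, List.nil_append]
  rw [mM _ _ _ _ _ (by omega) (by omega)]
  simp only [List.cons_append, List.nil_append]
  rw [mC _ _ _ _ _ _ (by omega) (by omega)]
  simp only [List.cons_append, List.nil_append]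

theorem nr2n4 (bs : List Bk) (c0 c1 c2 c3 c4 c5 c6 k1 k2 k3 k4 k5 : ℕ)
    (h1 : 1 ≤ k1) (h2 : k1 ≤ c1) (h3 : 1 ≤ k2) (h4 : k2 ≤ c2) (h5 : 1 ≤ k3) (h6 : k3 ≤ c3) (h7 : c4 + 3 ≤ k4) (h8 :
      k4 ≤ c4 + c5 + 2) (h9 : c6 + 2 ≤ k5) (h10 : k5 ≤ c6 + (c0 + k1 + 2) + 1) :
    nb (.M k1 :: .M k2 :: .M k3 :: .M k4 :: .Z k5 :: bs) (fa [c0, c1, c2, c3, c4, c5, c6]) =
      nb bs (fa [c6 + (c0 + k1 + 2) + 1 - k5, c1 - k1 + k2 + 2, c2 - k2 + k3 + 2, c3 - k3 + k4 + 4, c4 + c5 + 2 - k4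
        + 1, k5 + 2]) := by
  rw [mM _ _ _ _ _ (by omega) (by omega)]
  simp only [List.cons_append, List.nil_append]
  rw [mM _ _ _ _ _ (by omega) (by omega)]
  simp only [List.cons_append, List.nil_append]
  rw [mM _ _ _ _ _ (by omega) (by omega)]
  simp only [List.cons_append, List.nil_append]
  rw [mP _ _ _ _ _ _ (by omega) (by omega)]
  simp only [List.cons_append, List.nil_append]
  rw [mC _ _ _ _ _ _ (by omega) (by omega)]
  simp only [List.cons_append, List.nil_append]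

end P913N
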