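import Pool.Agent.Lib.P913N.NTwo

/-!
# Machines with the local computations execute the node system
-/

set_option autoImplicit false

namespace P913N

open P913

theorem bp_cons (x : Bool) (l : List Bool) : bp (x :: l) = xor x (bp l) := rfl

theorem popq_map_not (l : List Bool) (hl : l ≠ []) :
    popq (l.map not) = (!(popq l).1, (popq l).2.map not) := by
  cases l with
  | nil => exact absurd rfl hl
  | cons a l => rfl

section

variable {k n : ℕ} [NeZero k] [NeZero n] {U : TM k n} (L : NLoc U)

theorem NLoc.lw_ne (p : List Bool) : L.lw p ≠ [] := by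
  simp [NLoc.lw, L.E_ne]

/-- right pass over many cells -/
theorem NLoc.passRs (X : List Bool) : ∀ (h : Bool) (l r : List (Fin n)), l ≠ [] →
    Rn U (AR l (L.qA h) (X.reverse.flatMap L.cr ++ r))
      (AR (((popq (X ++ [h])).2.reverse.flatMap L.cl).reverse ++ l) (L.qA (popq (X ++ [h])).1) r) := by
  induction X using List.reverseRecOn with
  | nil =>
    intro h l r _
    exact Rn.refl _
  | append_singleton X x ih =>
    intro h l r hl
    have h1 := L.passR h x l (X.reverse.flatMap L.cr ++ r) hl
    have h2 := ih x ((L.cl h).reverse ++ l) r (by simp [hl])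
    have e1 : (X ++ [x]).reverse.flatMap L.cr ++ r = L.cr x ++ (X.reverse.flatMap L.cr ++ r) := by simp
    have e2 : popq (X ++ [x] ++ [h]) = ((popq (X ++ [x])).1, (popq (X ++ [x])).2 ++ [h]) :=
      popq_append _ (by simp) _
    rw [e1, e2]
    have e3 : (((popq (X ++ [x])).2 ++ [h]).reverse.flatMap L.cl).reverse ++ l =
        (((popq (X ++ [x])).2.reverse.flatMap L.cl).reverse ++ ((L.cl h).reverse ++ l)) := by simp
    rw [e3]
    exact h1.trans h2

/-- left pass over many cells -/
theorem NLoc.passLs (X : List Bool) : ∀ (h : Bool) (l r : List (Fin n)), l ≠ [] →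
    Rn U (AL ((X.reverse.flatMap L.cl).reverse ++ l) (L.qB h) r)
      (AL l (L.qB (xor h (bp X))) (X.reverse.flatMap L.cr ++ r)) := by
  induction X with
  | nil =>
    intro h l r _
    have e : xor h (bp []) = h := by simp [bp]
    rw [e]
    exact Rn.refl _
  | cons x X ih =>
    intro h l r hl
    have h1 := L.passL h x ((X.reverse.flatMap L.cl).reverse ++ l) r (by simp [hl])
    have h2 := ih (xor h x) l (L.cr x ++ r) hl
    have e1 : ((x :: X).reverse.flatMap L.cl).reverse ++ l =
        (L.cl x).reverse ++ ((X.reverse.flatMap L.cl).reverse ++ l) := by simp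
    have e2 : xor h (bp (x :: X)) = xor (xor h x) (bp X) := by
      rw [bp_cons, Bool.xor_assoc]
    have e3 : (x :: X).reverse.flatMap L.cr ++ r = X.reverse.flatMap L.cr ++ (L.cr x ++ r) := by simp
    rw [e1, e2, e3]
    exact h1.trans h2

/-- a letter is pushed to the data ring -/
theorem NLoc.pushD (e : Bool) (q : List Bool) (l : List (Fin n)) (hl : l ≠ []) :
    Rn U (AR l (L.qA !e) (L.dw q))
      (AL l (L.qB (zp (popq (q ++ [e])).2))
        (L.dw (if (popq (q ++ [e])).1 = true then false :: (popq (q ++ [e])).2 else (popq (q ++ [e])).2))) := by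
  have h1 := L.passRs (q.map not) (!e) l [] hl
  have e1 : q.map not ++ [!e] = (q ++ [e]).map not := by simp
  rw [List.append_nil, e1, popq_map_not _ (by simp)] at h1
  refine (h1 : Rn U (AR l (L.qA !e) (L.dw q)) _).trans ?_
  set z := (popq (q ++ [e])).1 with hz
  set t := (popq (q ++ [e])).2 with ht
  have hl' : ((t.map not).reverse.flatMap L.cl).reverse ++ l ≠ [] := by simp [hl]
  cases hz' : z with
  | false =>
    have h2 := L.passLs (t.map not) false l [] hl
    rw [List.append_nil, Bool.false_xor] at h2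
    simp only [Bool.not_false, Bool.false_eq_true, if_false]
    exact (L.rend1 _ hl').trans h2
  | true =>
    have h2 := L.passLs (t.map not) false l (L.cr true) hl
    rw [Bool.false_xor] at h2
    simp only [Bool.not_true, if_true]
    have e3 : L.dw (false :: t) = (t.map not).reverse.flatMap L.cr ++ L.cr true := by
      simp [NLoc.dw]
    rw [e3]
    exact (L.rend0 _ hl').trans h2

/-- the head goes to the program ring -/
theorem NLoc.pushP (p : List Bool) (r : List (Fin n)) :
    Rn U (AL (L.lw p) (L.qB L.c) r)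
      (AR (L.lw (popq (p ++ [bp p])).2) (L.qA (popq (p ++ [bp p])).1) r) := by
  have hE : L.E.reverse ≠ [] := by simp [L.E_ne]
  have h1 := L.passLs p L.c L.E.reverse r hE
  have h2 := L.lend (xor L.c (bp p)) (p.reverse.flatMap L.cr ++ r)
  have e : xor (xor L.c (bp p)) L.c = bp p := by
    cases L.c <;> cases bp p <;> rfl
  rw [e] at h2
  have h3 := L.passRs p (bp p) L.E.reverse r hE
  exact h1.trans (h2.trans h3)

/-- one step of the node system is executed -/
theorem NLoc.run_step (c c' : ZC) (h : zstep c = some c') : Rp U (L.C c) (L.C c') := by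
  obtain ⟨g, b, p, q⟩ := c
  have hlw := L.lw_ne p
  unfold zstep at h
  simp only at h
  rcases hF : g.F b with _ | ⟨g', _ | e⟩
  · rw [hF] at h
    simp at h
  · rw [hF] at h
    simp only [Option.some.injEq] at h
    subst h
    have hg : g.wp = false ∧ g'.wp = true := by
      cases g <;> cases b <;> simp [Nd.F] at hF <;> subst hF <;> exact ⟨rfl, rfl⟩
    have h1 := L.fL g b g' hg.1 hF (L.lw p) (L.dw q) hlw
    have h2 := L.pushP p (L.W g' ++ L.dw q)
    simpa [NLoc.C, hg.1, hg.2] using h1.trans_rn h2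
  · rw [hF] at h
    simp only [Option.some.injEq] at h
    subst h
    have hg' : g'.wp = false := by
      cases g <;> cases b <;> simp [Nd.F] at hF <;> obtain ⟨rfl, _⟩ := hF <;> rfl
    have h2 := L.pushD e q ((L.W g').reverse ++ L.lw p) (by simp [hlw])
    cases hg : g.wp with
    | true =>
      have h1 := L.fA g b g' e hg hF (L.lw p) (L.dw q) hlw
      simpa [NLoc.C, hg, hg'] using h1.trans_rn h2
    | false =>
      have h1 := L.fR g b g' e hg hF (L.lw p) (L.dw q) hlw
      simpa [NLoc.C, hg, hg'] using h1.trans_rn h2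

theorem zstep_none (c : ZC) (h : zstep c = none) : c.g = .n4 ∧ c.h = false := by
  obtain ⟨g, b, p, q⟩ := c
  cases g <;> cases b <;> simp [zstep, Nd.F] at h ⊢

/-- the halting configuration -/
theorem NLoc.halt_C (c : ZC) (h : zstep c = none) : ∃ t : ℕ, ((step U)^[t] (L.C c)).st = none ∧
    ((step U)^[t] (L.C c)).tape = wordTape (L.final c.p c.q) := by
  obtain ⟨h1, h2⟩ := zstep_none c h
  obtain ⟨t, h3, h4⟩ := L.halt (L.lw c.p) (L.dw c.q) (L.lw_ne c.p)
  have e : L.C c = AR (L.lw c.p) (L.qA false) (L.W .n4 ++ L.dw c.q) := by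
    simp [NLoc.C, h1, h2, Nd.wp]
  rw [e]
  refine ⟨t, h3, ?_⟩
  rw [h4]
  simp [NLoc.lw, NLoc.final]

/-- the start of the machine -/
theorem NLoc.run_init (w q : List Bool) (hw : w.getLast? = some L.h0) :
    Rn U (AR (List.replicate L.o 0) 0 (L.input w q)) (L.C ⟨.n1, (popq w).1, (popq w).2, q⟩) := by
  have hE : L.E.reverse ≠ [] := by simp [L.E_ne]
  obtain ⟨X, rfl⟩ : ∃ X, w = X ++ [L.h0] := by
    rw [List.getLast?_eq_some_iff] at hw
    exact hw
  have h1 := L.start (X.reverse.flatMap L.cr ++ (L.W .n1 ++ L.dw q))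
  have h2 := L.passRs X L.h0 L.E.reverse (L.W .n1 ++ L.dw q) hE
  have e : L.input (X ++ [L.h0]) q = L.S ++ (X.reverse.flatMap L.cr ++ (L.W .n1 ++ L.dw q)) := by
    simp [NLoc.input]
  rw [e]
  simpa [NLoc.C, NLoc.lw, Nd.wp] using h1.trans h2

theorem ziter_succ' (N : ℕ) (c : ZC) : ziter (N + 1) c = (zstep (ziter N c)).getD (ziter N c) := by
  simp only [ziter, Function.iterate_succ_apply']

theorem NLoc.C_st (c : ZC) : (L.C c).st ≠ none := by
  unfold NLoc.C
  split <;> simp [AR, AL]

theorem NLoc.run_iter (c : ZC) (N : ℕ) : Rn U (L.C c) (L.C (ziter N c)) := by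
  induction N with
  | zero => exact Rn.refl _
  | succ N ih =>
    rw [ziter_succ']
    cases h : zstep (ziter N c) with
    | none => exact ih
    | some c' =>
      obtain ⟨t, ht⟩ := L.run_step _ _ h
      exact ih.trans ⟨t + 1, ht⟩

/-- The machine halts if and only if the node system halts. -/
theorem NLoc.halts_iff (w q : List Bool) (hw : w.getLast? = some L.h0) :
    Halts U (L.input w q) ↔ ZHalts ⟨.n1, (popq w).1, (popq w).2, q⟩ := by
  have hst : ∀ t, ((step U)^[t] (init (L.input w q))).st =
      ((step U)^[t] (AR (List.replicate L.o 0) 0 (L.input w q))).st := by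
    intro t
    rw [init_tr L.o, iter_tr]
    rfl
  constructor
  · rintro ⟨t, ht⟩
    rw [hst] at ht
    by_contra hno
    have hs : ∀ N, ∃ c', zstep (ziter N ⟨.n1, (popq w).1, (popq w).2, q⟩) = some c' := by
      intro N
      rcases h : zstep (ziter N ⟨.n1, (popq w).1, (popq w).2, q⟩) with _ | c'
      · exact absurd ⟨N, h⟩ hno
      · exact ⟨c', rfl⟩
    have hn := not_halt (U := U) (c := fun N => L.C (ziter N ⟨.n1, (popq w).1, (popq w).2, q⟩))
      (fun N => by
        obtain ⟨c', hc⟩ := hs N
        have := L.run_step _ _ hc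
        simpa [ziter_succ', hc] using this)
      (fun N => L.C_st _)
    apply hn
    have h0 := Rn_halt_iff (L.run_init w q hw)
      ((step U)^[t] (AR (List.replicate L.o 0) 0 (L.input w q))).tape
    obtain ⟨t', h1, _⟩ := h0.mp ⟨t, ht, rfl⟩
    exact ⟨t', h1⟩
  · rintro ⟨N, hN⟩
    obtain ⟨t, h1, h2⟩ := L.halt_C _ hN
    have h3 := (L.run_init w q hw).trans (L.run_iter _ N)
    obtain ⟨t', h4, _⟩ := (Rn_halt_iff h3 _).mpr ⟨t, h1, h2⟩
    refine ⟨t', ?_⟩
    rw [hst]
    exact h4

/-- The output of the machine. -/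
theorem NLoc.output (w q : List Bool) (hw : w.getLast? = some L.h0) (N : ℕ)
    (hN : zstep (ziter N ⟨.n1, (popq w).1, (popq w).2, q⟩) = none)
    (X : ℤ → Fin n) (hX : Output U (L.input w q) X) :
    X = fun i => wordTape (L.final (ziter N ⟨.n1, (popq w).1, (popq w).2, q⟩).p
      (ziter N ⟨.n1, (popq w).1, (popq w).2, q⟩).q) (i + L.o) := by
  obtain ⟨t, h1, h2⟩ := L.halt_C _ hN
  have h3 := (L.run_init w q hw).trans (L.run_iter _ N)
  obtain ⟨t', h4, h5⟩ := (Rn_halt_iff h3 _).mpr ⟨t, h1, h2⟩
  have h6 : ∃ t : ℕ, ((step U)^[t] (init (L.input w q))).st = none ∧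
      ((step U)^[t] (init (L.input w q))).tape =
        fun i => wordTape (L.final (ziter N ⟨.n1, (popq w).1, (popq w).2, q⟩).p
          (ziter N ⟨.n1, (popq w).1, (popq w).2, q⟩).q) (i + L.o) := by
    refine ⟨t', ?_, ?_⟩
    · rw [init_tr L.o, iter_tr]
      exact h4
    · rw [init_tr L.o, iter_tr, ← h5]
      rfl
  exact halt_unique hX h6

end

end P913N
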