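import Pool.Agent.Lib.P913N.NSys

/-!
# The gap calculus of the system N
-/

set_option autoImplicit false

namespace P913N

open P913

namespace NRwAux

theorem oq_cons_zero (g : List ℕ) (x : ℕ) : oq (0 :: g) x = true :: oq g x := by
  simp [oq]

theorem oq_cons_succ (y : ℕ) (g : List ℕ) (x : ℕ) : oq ((y + 1) :: g) x = false :: oq (y :: g) x := by
  simp [oq, List.replicate_succ]

theorem oq_snoc_zero (g : List ℕ) (x : ℕ) : oq g x ++ [false] = oq g (x + 1) := by
  simp [oq, List.replicate_succ']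

theorem oq_snoc_one (g : List ℕ) (x : ℕ) : oq g x ++ [true] = oq (g ++ [x]) 0 := by
  simp [oq]

theorem rotf_oq (s y : ℕ) (g : List ℕ) (x : ℕ) : rotf s (oq (y :: g) x) = oq g (x + s + y) := by
  induction y generalizing s with
  | zero =>
    rw [oq_cons_zero]
    show oq g x ++ List.replicate s false = _
    simp [oq]
  | succ y ih =>
    rw [oq_cons_succ]
    show rotf (s + 1) _ = _
    rw [ih]
    congr 1
    omega

theorem mem_oq (y : ℕ) (g : List ℕ) (x : ℕ) : true ∈ oq (y :: g) x := by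
  simp [oq]

end NRwAux

open NRwAux

theorem nst_a1 (g : List ℕ) (x : ℕ) : nst .a true (oq g x) = some (.c, oq g (x + 1)) := by
  rw [← oq_snoc_zero]
  rfl

theorem nst_c00 (g : List ℕ) (x : ℕ) : nst .c false (oq (0 :: g) x) = some (.c, oq g (x + 2)) := by
  rw [oq_cons_zero, show x + 2 = x + 1 + 1 from rfl, ← oq_snoc_zero, ← oq_snoc_zero]
  simp [nst]

theorem nst_c0s (y : ℕ) (g : List ℕ) (x : ℕ) :
    nst .c false (oq ((y + 1) :: g) x) = some (.c, oq (y :: g) (x + 1)) := by
  rw [oq_cons_succ, ← oq_snoc_zero]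
  simp [nst]

theorem nst_c10 (g : List ℕ) (x : ℕ) : nst .c true (oq (0 :: g) x) = some (.g, oq (g ++ [x]) 0) := by
  rw [oq_cons_zero, ← oq_snoc_one]
  rfl

theorem nst_c1s (y : ℕ) (g : List ℕ) (x : ℕ) :
    nst .c true (oq ((y + 1) :: g) x) = some (.a, oq (g ++ [x, 0]) y) := by
  rw [oq_cons_succ]
  show some (NC.a, rotf 0 (oq (y :: g) x ++ [true, true])) = _
  have h : oq (y :: g) x ++ [true, true] = oq (y :: (g ++ [x, 0])) 0 := by
    simp [oq]
  rw [h, rotf_oq]
  simp

theorem nst_g1 (g : List ℕ) (x : ℕ) : nst .g true (oq g x) = some (.c, oq (g ++ [x]) 0) := by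
  rw [← oq_snoc_one]
  rfl

theorem nst_g0 (y : ℕ) (g : List ℕ) (x : ℕ) :
    nst .g false (oq (y :: g) x) = some (.g, oq g (x + 2 + y)) := by
  show (if true ∈ oq (y :: g) x then some (NC.g, rotf 0 (oq (y :: g) x ++ [false, false])) else _) = _
  rw [if_pos (mem_oq y g x)]
  have h : oq (y :: g) x ++ [false, false] = oq (y :: g) (x + 2) := by
    rw [show x + 2 = x + 1 + 1 from rfl, ← oq_snoc_zero, ← oq_snoc_zero]
    simp
  rw [h, rotf_oq]

theorem nrun_append (u w : List Bool) (x : NC × List Bool) : nrun (u ++ w) x = (nrun u x).bind (nrun w) := by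
  induction u generalizing x with
  | nil => rfl
  | cons b u ih =>
    rw [List.cons_append, nrun, nrun]
    cases h : nst x.1 b x.2 with
    | none => rfl
    | some y =>
      rw [Option.bind_some, Option.bind_some, ih]

theorem nb_append (u w : List Bk) (x : NC × List Bool) : nb (u ++ w) x = (nb u x).bind (nb w) := by
  unfold nb kw
  rw [List.flatMap_append, nrun_append]

theorem nb_cons (b : Bk) (bs : List Bk) (x : NC × List Bool) : nb (b :: bs) x = (nrun b.w x).bind (nb bs) := by
  unfold nb kw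
  rw [List.flatMap_cons, nrun_append]

theorem nb_nil (x : NC × List Bool) : nb [] x = some x := rfl

namespace NRwAux

/-- zeros within the first gap -/
theorem zeros_le (n y : ℕ) (g : List ℕ) (x : ℕ) (h : n ≤ y) :
    nrun (List.replicate n false) (.c, oq (y :: g) x) = some (.c, oq ((y - n) :: g) (x + n)) := by
  induction n generalizing y x with
  | zero => rfl
  | succ n ih =>
    obtain ⟨y, rfl⟩ : ∃ y', y = y' + 1 := ⟨y - 1, by omega⟩
    rw [List.replicate_succ, nrun]
    simp only
    rw [nst_c0s, Option.bind_some, ih y (x + 1) (by omega), show y + 1 - (n + 1) = y - n by omega,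
      show x + (n + 1) = x + 1 + n by omega]

/-- zeros which remove the particle -/
theorem zeros_rm (n y : ℕ) (g : List ℕ) (x : ℕ) (h : y + 1 ≤ n) :
    nrun (List.replicate n false) (.c, oq (y :: g) x) =
      nrun (List.replicate (n - (y + 1)) false) (.c, oq g (x + y + 2)) := by
  obtain ⟨m, rfl⟩ : ∃ m, n = y + 1 + m := ⟨n - (y + 1), by omega⟩
  rw [Nat.add_sub_cancel_left, show y + 1 + m = y + (m + 1) by omega, ← List.replicate_append_replicate, nrun_append,
    zeros_le y y g x (le_refl y), Option.bind_some, Nat.sub_self, List.replicate_succ, nrun]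
  simp only
  rw [nst_c00, Option.bind_some]

end NRwAux

open NRwAux

theorem fat_cons (y : ℕ) (t : List ℕ) : fat (y :: t) = y :: 0 :: fat t := by
  simp [fat]

theorem fat_append (s t : List ℕ) : fat (s ++ t) = fat s ++ fat t := by
  simp [fat]

/-- a block `M` on a fat particle, in the thin notation -/
theorem tM (x y n : ℕ) (g : List ℕ) (h1 : 1 ≤ n) (h2 : n ≤ y) :
    nrun (Bk.M n).w (.a, oq (0 :: y :: g) x) = some (.a, oq (g ++ [x + n + 2, 0]) (y - n)) := by
  unfold Bk.w
  rw [nrun]
  simp only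
  rw [nst_a1, Option.bind_some, nrun_append, zeros_rm n 0 _ _ (by omega), zeros_le _ _ _ _ (by omega),
    Option.bind_some, nrun]
  simp only
  rw [show y - (n - (0 + 1)) = (y - n) + 1 by omega, nst_c1s, Option.bind_some, nrun]
  have e : x + 1 + 0 + 2 + (n - (0 + 1)) = x + n + 2 := by omega
  rw [e]

/-- a block `M` on a fat particle removes the next fat particle -/
theorem tP (x y z n : ℕ) (g : List ℕ) (h1 : y + 3 ≤ n) (h2 : n ≤ y + z + 2) :
    nrun (Bk.M n).w (.a, oq (0 :: y :: 0 :: z :: g) x) = some (.a, oq (g ++ [x + n + 4, 0]) (y + z + 2 - n)) := by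
  unfold Bk.w
  rw [nrun]
  simp only
  rw [nst_a1, Option.bind_some, nrun_append, zeros_rm n 0 _ _ (by omega), zeros_rm _ y _ _ (by omega),
    zeros_rm _ 0 _ _ (by omega), zeros_le _ _ _ _ (by omega), Option.bind_some, nrun]
  simp only
  rw [show z - (n - (0 + 1) - (y + 1) - (0 + 1)) = (y + z + 2 - n) + 1 by omega, nst_c1s, Option.bind_some, nrun]
  have e : x + 1 + 0 + 2 + y + 2 + 0 + 2 + (n - (0 + 1) - (y + 1) - (0 + 1)) = x + n + 4 := by omega
  rw [e]

/-- a block `M` on a fat particle hits the second half of the next particle -/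
theorem tHit (x y : ℕ) (g : List ℕ) :
    nrun (Bk.M (y + 2)).w (.a, oq (0 :: y :: 0 :: g) x) = some (.g, oq (g ++ [x + (y + 2) + 3]) 0) := by
  unfold Bk.w
  rw [nrun]
  simp only
  rw [nst_a1, Option.bind_some, nrun_append, zeros_rm (y + 2) 0 _ _ (by omega), zeros_rm _ y _ _ (by omega)]
  have e0 : y + 2 - (0 + 1) - (y + 1) = 0 := by omega
  rw [e0]
  simp only [List.replicate_zero, nrun, Option.bind_some]
  rw [nst_c10]
  simp only [Option.bind_some]
  have e : x + 1 + 0 + 2 + y + 2 = x + (y + 2) + 3 := by omega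
  rw [e]

/-- a block `Z` on a fat particle: a new particle -/
theorem tZ (x y n : ℕ) (g : List ℕ) (h : n + 1 ≤ y) :
    nrun (Bk.Z n).w (.a, oq (0 :: y :: g) x) = some (.a, oq (g ++ [x + 1, 0, n, 0]) (y - n - 1)) := by
  unfold Bk.w
  rw [nrun]
  simp only
  rw [nst_a1, Option.bind_some, nrun]
  simp only
  rw [nst_c10, Option.bind_some, nrun]
  simp only
  rw [nst_g1, Option.bind_some, nrun_append]
  simp only [List.cons_append]
  rw [zeros_le _ _ _ _ (by omega), Option.bind_some, nrun]
  simp only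
  rw [show y - n = (y - n - 1) + 1 by omega, nst_c1s, Option.bind_some, nrun]
  simp

/-- a block `Z` on a fat particle removes the next fat particle -/
theorem tC (x y z n : ℕ) (g : List ℕ) (h1 : y + 2 ≤ n) (h2 : n ≤ y + z + 1) :
    nrun (Bk.Z n).w (.a, oq (0 :: y :: 0 :: z :: g) x) =
      some (.a, oq (g ++ [x + 1, 0, n + 2, 0]) (y + z + 1 - n)) := by
  unfold Bk.w
  rw [nrun]
  simp only
  rw [nst_a1, Option.bind_some, nrun]
  simp only
  rw [nst_c10, Option.bind_some, nrun]
  simp only
  rw [nst_g1, Option.bind_some, nrun_append]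
  simp only [List.cons_append]
  rw [zeros_rm _ _ _ _ (by omega), zeros_rm _ 0 _ _ (by omega), zeros_le _ _ _ _ (by omega), Option.bind_some, nrun]
  simp only
  rw [show z - (n - (y + 1) - (0 + 1)) = (y + z + 1 - n) + 1 by omega, nst_c1s, Option.bind_some, nrun]
  have e : 0 + y + 2 + 0 + 2 + (n - (y + 1) - (0 + 1)) = n + 2 := by omega
  rw [e]
  simp

/-- the block `H` on a fat particle -/
theorem tH (x y : ℕ) (g : List ℕ) :
    nrun Bk.H.w (.a, oq (0 :: y :: g) x) = some (.g, oq (g ++ [x + 1]) (y + 2)) := by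
  unfold Bk.w
  rw [nrun]
  simp only
  rw [nst_a1, Option.bind_some, nrun]
  simp only
  rw [nst_c10, Option.bind_some, nrun]
  simp only
  rw [List.cons_append, nst_g0, Option.bind_some, nrun]
  congr 3
  omega

/-- the block `H` after a hit: the system halts -/
theorem tHH (x z : ℕ) (g : List ℕ) :
    nrun Bk.H.w (.g, oq ((z + 1) :: g) x) = none := by
  unfold Bk.w
  rw [nrun]
  simp only
  rw [nst_g1, Option.bind_some, nrun]
  simp only
  rw [List.cons_append, nst_c1s, Option.bind_some, nrun]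
  rfl

/-- the block `M 1` in class `g` -/
theorem tG (x y : ℕ) (g : List ℕ) :
    nrun (Bk.M 1).w (.g, oq (0 :: (y + 1) :: g) x) = some (.a, oq (g ++ [x, 2, 0]) y) := by
  unfold Bk.w
  rw [nrun]
  simp only
  rw [nst_g1, Option.bind_some]
  simp only [List.replicate_one, List.cons_append, List.nil_append]
  rw [nrun]
  simp only
  rw [nst_c00, Option.bind_some, nrun]
  simp only
  rw [nst_c1s, Option.bind_some, nrun]
  simp

/-- a block `M` on a thin particle -/
theorem tT (x y n : ℕ) (g : List ℕ) (h : n + 1 ≤ y) :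
    nrun (Bk.M n).w (.a, oq (y :: g) x) = some (.a, oq (g ++ [x + n + 1, 0]) (y - n - 1)) := by
  unfold Bk.w
  rw [nrun]
  simp only
  rw [nst_a1, Option.bind_some, nrun_append, zeros_le _ _ _ _ (by omega), Option.bind_some, nrun]
  simp only
  rw [show y - n = (y - n - 1) + 1 by omega, nst_c1s, Option.bind_some, nrun]
  have e : x + 1 + n = x + n + 1 := by omega
  rw [e]
  simp

/-- a block `M` on a thin particle with a fat particle in the distance `2` -/
theorem tTF (x y n : ℕ) (g : List ℕ) (h1 : 4 ≤ n) (h2 : n ≤ y + 3) :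
    nrun (Bk.M n).w (.a, oq (2 :: 0 :: y :: g) x) = some (.a, oq (g ++ [x + n + 3, 0]) (y + 3 - n)) := by
  unfold Bk.w
  rw [nrun]
  simp only
  rw [nst_a1, Option.bind_some, nrun_append, zeros_rm n 2 _ _ (by omega), zeros_rm _ 0 _ _ (by omega),
    zeros_le _ _ _ _ (by omega), Option.bind_some, nrun]
  simp only
  rw [show y - (n - (2 + 1) - (0 + 1)) = (y + 3 - n) + 1 by omega, nst_c1s, Option.bind_some, nrun]
  have e : x + 1 + 2 + 2 + 0 + 2 + (n - (2 + 1) - (0 + 1)) = x + n + 3 := by omega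
  rw [e]

/-! ## Fat particles -/

/-- the particle moves, its gap is large enough -/
theorem mM (x y n : ℕ) (t : List ℕ) (bs : List Bk) (h1 : 1 ≤ n) (h2 : n ≤ y) :
    nb (.M n :: bs) (fa (x :: y :: t)) = nb bs (fa ((y - n) :: (t ++ [x + n + 2]))) := by
  rw [nb_cons, fa, fat_cons, tM _ _ _ _ h1 h2, Option.bind_some, fa, fat_append, fat_cons]
  rfl

/-- the particle moves and removes the next particle -/
theorem mP (x y z n : ℕ) (t : List ℕ) (bs : List Bk) (h1 : y + 3 ≤ n) (h2 : n ≤ y + z + 2) :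
    nb (.M n :: bs) (fa (x :: y :: z :: t)) = nb bs (fa ((y + z + 2 - n) :: (t ++ [x + n + 4]))) := by
  rw [nb_cons, fa, fat_cons, fat_cons, tP _ _ _ _ _ h1 h2, Option.bind_some, fa, fat_append, fat_cons]
  rfl

/-- a new particle -/
theorem mZ (x y n : ℕ) (t : List ℕ) (bs : List Bk) (h : n + 1 ≤ y) :
    nb (.Z n :: bs) (fa (x :: y :: t)) = nb bs (fa ((y - n - 1) :: (t ++ [x + 1, n]))) := by
  rw [nb_cons, fa, fat_cons, tZ _ _ _ _ h, Option.bind_some, fa, fat_append, fat_cons, fat_cons]
  rfl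

/-- a new particle is created and the next particle is removed -/
theorem mC (x y z n : ℕ) (t : List ℕ) (bs : List Bk) (h1 : y + 2 ≤ n) (h2 : n ≤ y + z + 1) :
    nb (.Z n :: bs) (fa (x :: y :: z :: t)) = nb bs (fa ((y + z + 1 - n) :: (t ++ [x + 1, n + 2]))) := by
  rw [nb_cons, fa, fat_cons, fat_cons, tC _ _ _ _ _ h1 h2, Option.bind_some, fa, fat_append, fat_cons, fat_cons]
  rfl

end P913N
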