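import Pool.Agent.Lib.P913N.NRows

/-!
# The segments of the program (system N)

Six fat particles with the gaps `Y` (dump), `J`, `a`, `b`, `c` (registers, the value `x` is the gap `gg N + 3 x`), and a
service gap.  `ns1` tests `J`: if `J = 0` then `J += D + w - 1` and the counters are increased by `u2, u3, u4`; if `J > 0`
then `J += w - 1` and the counters are increased by `v2, v3, v4`.  `ns2`, `ns3`, `ns4` test the counters `a`, `b`, `c`: if
the counter is `0` then `J += D`, else the counter is decreased.  `nsh` halts if `J = 0`, else `J` is decreased.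
-/

set_option autoImplicit false

namespace P913N

open P913

/-- test of `J` -/
def ns1 (N D w u2 u3 u4 v2 v3 v4 : ℕ) : List Bk :=
  [.Z (gg N + 2), .M 11, .M (16 + 3 * v2 - 3 * u2), .M (21 + 6 * v2 + 3 * v3 - 6 * u2 - 3 * u3),
    .M (gg N + 27 + 9 * v2 + 6 * v3 + 3 * v4 - 9 * u2 - 6 * u3 - 3 * u4),
    .M (gg N - 3 * D), .M (gg N + 5), .M (gg N), .M (gg N), .M (gg N),
    .Z (gg N + 109 + 3 * v2 + 3 * v3 + 3 * v4 - 3 * u2 - 3 * u3 - 3 * u4),
    .M (gg N), .M (gg N), .M (gg N), .M (gg N), .M (gg N),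
    .M (gg N + 112 + 3 * v2 + 3 * v3 + 3 * v4 - 3 * u2 - 3 * u3 - 3 * u4),
    .M (185 + 12 * v2 + 9 * v3 + 6 * v4 - 15 * u2 - 12 * u3 - 9 * u4 - 3 * w),
    .M (167 + 12 * v2 + 9 * v3 + 6 * v4 - 15 * u2 - 12 * u3 - 9 * u4),
    .M (154 + 12 * v2 + 9 * v3 + 6 * v4 - 12 * u2 - 12 * u3 - 9 * u4),
    .M (141 + 9 * v2 + 9 * v3 + 6 * v4 - 9 * u2 - 9 * u3 - 9 * u4),
    .M (128 + 6 * v2 + 6 * v3 + 6 * v4 - 6 * u2 - 6 * u3 - 6 * u4), .M 1]

/-- test of `a` -/
def ns2 (N D : ℕ) : List Bk :=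
  [.M 1, .Z (gg N + 2), .M 8, .M 10, .M (gg N + 13), .M (gg N - 7 - 3 * D), .M (gg N), .M (gg N + 5), .M (gg N),
    .M (gg N), .Z (gg N + 106), .M (gg N), .M (gg N), .M (gg N), .M (gg N), .M (gg N), .M (gg N + 109),
    .M 170, .M 157, .M 142, .M 132, .M 122, .M 1]

/-- test of `b` -/
def ns3 (N D : ℕ) : List Bk :=
  [.M 1, .M 1, .Z (gg N + 2), .M 8, .M (gg N + 11), .M (gg N - 14 - 3 * D), .M (gg N - 7), .M (gg N), .M (gg N + 5),
    .M (gg N), .Z (gg N + 106), .M (gg N), .M (gg N), .M (gg N), .M (gg N), .M (gg N), .M (gg N + 109),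
    .M 175, .M 160, .M 147, .M 132, .M 122, .M 1]

/-- test of `c` -/
def ns4 (N D : ℕ) : List Bk :=
  [.M 1, .M 1, .M 1, .Z (gg N + 2), .M (gg N + 9), .M (gg N - 21 - 3 * D), .M (gg N - 14), .M (gg N - 7), .M (gg N),
    .M (gg N + 5), .Z (gg N + 106), .M (gg N), .M (gg N), .M (gg N), .M (gg N), .M (gg N), .M (gg N + 109),
    .M 180, .M 165, .M 150, .M 137, .M 122, .M 1]

/-- the halting segment -/
def nsh (N : ℕ) : List Bk :=
  [.M (gg N + 2), .H, .M 1, .M (gg N - 15), .M (gg N - 21), .M (gg N - 27), .M 1, .M (gg N), .M (gg N - 6),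
    .M 1, .M 1, .M 1, .M 5, .M 1, .M 1, .M 1, .M 1, .M 1]

end P913N
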