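import Pool.Agent.Lib.P913N.NSys
import Pool.Agent.Lib.P913.UniGen

/-!
# Machines which simulate the system N

The program `w` (a cyclic word with an even number of `1`s, the last bit is a `0`) and the first queue `q` (nonempty, an
even number of `0`s) are on the input; the first class is `c`.
-/

set_option autoImplicit false

namespace P913N

open P913

/-- the machine simulates the system N: the length of the program and a bound for the number of rounds can be read from the
final tape -/
def NSimU {k n : ℕ} [NeZero k] [NeZero n] (U : TM k n) : Prop :=
  ∃ (inp : List Bool → List Bool → List (Fin n)) (dec0 : List ℕ → ℕ), Computable₂ inp ∧ Computable dec0 ∧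
    ∀ w q : List Bool, 2 ≤ w.length → w.count true % 2 = 0 → w.getLast? = some false → true ∈ w →
      q.count false % 2 = 0 → 2 ≤ q.length →
      (Halts U (inp w q) ↔ NHalts w (NC.c, q)) ∧
      ∀ T : ℤ → Fin n, Output U (inp w q) T → ∃ x : List ℕ × List ℕ, IsCode x T ∧
        dec0 x.2 = w.length - 1 ∧ ∃ m ≤ x.2.length, (nround w)^[m] (some (NC.c, q)) = none

end P913N
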