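import Pool.Agent.Lib.P913N.NSlotD

/-!
# One slot (system N)
-/

set_option autoImplicit false

namespace P913N

open P913

namespace NSlotAux

/-- the segment of `go` and `inc` -/
theorem sz (N d u2 u3 u4 Y a b c : ℕ) (hd : d + 1 ≤ N) (hu2 : u2 ≤ 1) (hu3 : u3 ≤ 1) (hu4 : u4 ≤ 1)
    (hY : 2 * gg N ≤ Y) :
    nb (ns1 N (d + 1) 0 u2 u3 u4 0 0 0) (rn N Y 0 (a, b, c)) =
      some (rn N (Y + 53 - 3 * (d + 1 + 0 + u2 + u3 + u4)) d (a + u2, b + u3, c + u4)) :=
  ns1_zero N (d + 1) 0 u2 u3 u4 0 0 0 Y a b c hd (by omega) (by omega) hu2 hu3 hu4 (by omega) (by omega)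
    (by omega) hY

theorem sp (N d u2 u3 u4 Y J a b c : ℕ) (hd : d ≤ N) (hu2 : u2 ≤ 1) (hu3 : u3 ≤ 1)
    (hu4 : u4 ≤ 1) (hY : 2 * gg N ≤ Y) :
    nb (ns1 N d 0 u2 u3 u4 0 0 0) (rn N Y (J + 1) (a, b, c)) = some (rn N (Y + 53) J (a, b, c)) :=
  ns1_pos N d 0 u2 u3 u4 0 0 0 Y J a b c hd (by omega) hu2 hu3 hu4 (by omega) (by omega) (by omega) hY

/-- the first segment of `dec` -/
theorem az (N v2 v3 v4 Y a b c : ℕ) (hv2 : v2 ≤ 1) (hv3 : v3 ≤ 1) (hv4 : v4 ≤ 1) (hY : 2 * gg N ≤ Y) :
    nb (ns1 N 0 1 0 0 0 v2 v3 v4) (rn N Y 0 (a, b, c)) = some (rn N (Y + 50) 0 (a, b, c)) :=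
  ns1_zero N 0 1 0 0 0 v2 v3 v4 Y a b c (by omega) (by omega) (by omega) (by omega) (by omega) (by omega)
    hv2 hv3 hv4 hY

theorem ap (N v2 v3 v4 Y J a b c : ℕ) (hv2 : v2 ≤ 1) (hv3 : v3 ≤ 1) (hv4 : v4 ≤ 1) (hY : 2 * gg N ≤ Y) :
    nb (ns1 N 0 1 0 0 0 v2 v3 v4) (rn N Y (J + 1) (a, b, c)) =
      some (rn N (Y + 53 - 3 * (1 + v2 + v3 + v4)) (J + 1) (a + v2, b + v3, c + v4)) :=
  ns1_pos N 0 1 0 0 0 v2 v3 v4 Y J a b c (by omega) (by omega) (by omega) (by omega) (by omega)
    hv2 hv3 hv4 hY

end NSlotAux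

open NSlotAux

variable {N : ℕ} (P : Fin N → CI (Fin N))

theorem nslot_none (t : Fin N) (Y J : ℕ) (v : ℕ × ℕ × ℕ) (hJ : J < N)
    (hY : 2 * gg N + 3 * N + 3 ≤ Y + 3 * J) (h : slotsem P t J v = none) :
    nb (nslot P t) (rn N Y J v) = none := by
  cases J with
  | succ J => simp [slotsem] at h
  | zero =>
    have h1 : ctStep P (t, v) = none := by simpa [slotsem] using h
    unfold ctStep at h1
    unfold nslot
    cases hP : P t with
    | go q => simp [hP] at h1
    | inc x q => simp [hP] at h1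
    | dec x q0 q1 =>
      simp only [hP] at h1
      split_ifs at h1
    | halt => exact nsh_zero _ _ _

theorem nslot_some (t : Fin N) (Y J J' : ℕ) (v v' : ℕ × ℕ × ℕ) (hJ : J < N)
    (hY : 2 * gg N + 3 * N + 3 ≤ Y + 3 * J) (h : slotsem P t J v = some (J', v')) :
    J' < N ∧ ∃ Y', nb (nslot P t) (rn N Y J v) = some (rn N Y' J' v') ∧ Y + 3 * J ≤ Y' + 3 * J' := by
  obtain ⟨a, b, c⟩ := v
  have hN : 0 < N := by omega
  cases J with
  | succ J =>
    simp only [slotsem, Option.some.injEq, Prod.mk.injEq] at h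
    obtain ⟨rfl, rfl⟩ := h
    refine ⟨by omega, ?_⟩
    unfold nslot
    cases hP : P t with
    | go q =>
      exact ⟨_, sp _ _ _ _ _ _ _ _ _ _ (KSlotAux.dst_lt _ _ _ hN) (by omega) (by omega) (by omega)
        (by omega), by omega⟩
    | inc x q =>
      cases x <;>
      exact ⟨_, sp _ _ _ _ _ _ _ _ _ _ (KSlotAux.dst_lt _ _ _ hN) (by omega) (by omega) (by omega)
        (by omega), by omega⟩
    | dec x q0 q1 =>
      cases x
      · refine ⟨Y + 53 - 3 * (1 + 1 + 0 + 0) + 53 + 53, ?_, by omega⟩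
        simp only
        rw [nb_append, ap _ _ _ _ _ _ _ _ _ (by omega) (by omega) (by omega) (by omega), Option.bind_some,
          nb_append, ns2_pos _ _ _ _ _ _ _ (KSlotAux.dst_lt _ _ _ hN) (by omega), Option.bind_some]
        exact sp _ _ _ _ _ _ _ _ _ _ (KSlotAux.dst_lt _ _ _ hN) (by omega) (by omega) (by omega) (by omega)
      · refine ⟨Y + 53 - 3 * (1 + 0 + 1 + 0) + 53 + 53, ?_, by omega⟩
        simp only
        rw [nb_append, ap _ _ _ _ _ _ _ _ _ (by omega) (by omega) (by omega) (by omega), Option.bind_some,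
          nb_append, ns3_pos _ _ _ _ _ _ _ (KSlotAux.dst_lt _ _ _ hN) (by omega), Option.bind_some]
        exact sp _ _ _ _ _ _ _ _ _ _ (KSlotAux.dst_lt _ _ _ hN) (by omega) (by omega) (by omega) (by omega)
      · refine ⟨Y + 53 - 3 * (1 + 0 + 0 + 1) + 53 + 53, ?_, by omega⟩
        simp only
        rw [nb_append, ap _ _ _ _ _ _ _ _ _ (by omega) (by omega) (by omega) (by omega), Option.bind_some,
          nb_append, ns4_pos _ _ _ _ _ _ _ (KSlotAux.dst_lt _ _ _ hN) (by omega), Option.bind_some]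
        exact sp _ _ _ _ _ _ _ _ _ _ (KSlotAux.dst_lt _ _ _ hN) (by omega) (by omega) (by omega) (by omega)
    | halt => exact ⟨_, nsh_pos _ _ _ _ _ _, by omega⟩
  | zero =>
    simp only [slotsem] at h
    obtain ⟨s, hs, hs'⟩ := Option.map_eq_some_iff.mp h
    simp only [Prod.mk.injEq] at hs'
    obtain ⟨rfl, rfl⟩ := hs'
    refine ⟨Nat.lt_of_succ_le (KSlotAux.dst_lt _ _ _ hN), ?_⟩
    unfold nslot
    unfold ctStep at hs
    cases hP : P t with
    | go q =>
      simp only [hP, Option.some.injEq] at hs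
      subst hs
      have h1 := KSlotAux.dst_lt N t q hN
      exact ⟨_, sz _ _ _ _ _ _ _ _ _ h1 (by omega) (by omega) (by omega) (by omega), by simp only; omega⟩
    | inc x q =>
      have h1 := KSlotAux.dst_lt N t q hN
      simp only [hP, Option.some.injEq] at hs
      subst hs
      cases x <;>
      exact ⟨_, sz _ _ _ _ _ _ _ _ _ h1 (by omega) (by omega) (by omega) (by omega), by simp only; omega⟩
    | dec x q0 q1 =>
      have h0 := KSlotAux.dst_lt N t q0 hN
      have h1 := KSlotAux.dst_lt N t q1 hN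
      simp only [hP] at hs
      cases x
      · cases a with
        | zero =>
          simp only [Ct.get, if_true, Option.some.injEq] at hs
          subst hs
          refine ⟨Y + 50 + 50 - 3 * (dst N t q0 + 1) + 53, ?_, by simp only; omega⟩
          simp only
          rw [nb_append, az _ _ _ _ _ _ _ _ (by omega) (by omega) (by omega) (by omega), Option.bind_some,
            nb_append, ns2_zero _ _ _ _ _ _ h0 (by omega), Option.bind_some, Nat.zero_add]
          exact sp _ _ _ _ _ _ _ _ _ _ h1 (by omega) (by omega) (by omega) (by omega)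
        | succ a =>
          simp only [Ct.get, Nat.add_one_ne_zero, if_false, Option.some.injEq, Ct.upd, Nat.add_sub_cancel] at hs
          subst hs
          refine ⟨Y + 50 + 53 + 53 - 3 * (dst N t q1 + 1 + 0 + 0 + 0 + 0), ?_, by simp only; omega⟩
          simp only
          rw [nb_append, az _ _ _ _ _ _ _ _ (by omega) (by omega) (by omega) (by omega), Option.bind_some,
            nb_append, ns2_pos _ _ _ _ _ _ _ h0 (by omega), Option.bind_some]
          exact sz _ _ _ _ _ _ _ _ _ h1 (by omega) (by omega) (by omega) (by omega)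
      · cases b with
        | zero =>
          simp only [Ct.get, if_true, Option.some.injEq] at hs
          subst hs
          refine ⟨Y + 50 + 50 - 3 * (dst N t q0 + 1) + 53, ?_, by simp only; omega⟩
          simp only
          rw [nb_append, az _ _ _ _ _ _ _ _ (by omega) (by omega) (by omega) (by omega), Option.bind_some,
            nb_append, ns3_zero _ _ _ _ _ _ h0 (by omega), Option.bind_some, Nat.zero_add]
          exact sp _ _ _ _ _ _ _ _ _ _ h1 (by omega) (by omega) (by omega) (by omega)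
        | succ b =>
          simp only [Ct.get, Nat.add_one_ne_zero, if_false, Option.some.injEq, Ct.upd, Nat.add_sub_cancel] at hs
          subst hs
          refine ⟨Y + 50 + 53 + 53 - 3 * (dst N t q1 + 1 + 0 + 0 + 0 + 0), ?_, by simp only; omega⟩
          simp only
          rw [nb_append, az _ _ _ _ _ _ _ _ (by omega) (by omega) (by omega) (by omega), Option.bind_some,
            nb_append, ns3_pos _ _ _ _ _ _ _ h0 (by omega), Option.bind_some]
          exact sz _ _ _ _ _ _ _ _ _ h1 (by omega) (by omega) (by omega) (by omega)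
      · cases c with
        | zero =>
          simp only [Ct.get, if_true, Option.some.injEq] at hs
          subst hs
          refine ⟨Y + 50 + 50 - 3 * (dst N t q0 + 1) + 53, ?_, by simp only; omega⟩
          simp only
          rw [nb_append, az _ _ _ _ _ _ _ _ (by omega) (by omega) (by omega) (by omega), Option.bind_some,
            nb_append, ns4_zero _ _ _ _ _ _ h0 (by omega), Option.bind_some, Nat.zero_add]
          exact sp _ _ _ _ _ _ _ _ _ _ h1 (by omega) (by omega) (by omega) (by omega)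
        | succ c =>
          simp only [Ct.get, Nat.add_one_ne_zero, if_false, Option.some.injEq, Ct.upd, Nat.add_sub_cancel] at hs
          subst hs
          refine ⟨Y + 50 + 53 + 53 - 3 * (dst N t q1 + 1 + 0 + 0 + 0 + 0), ?_, by simp only; omega⟩
          simp only
          rw [nb_append, az _ _ _ _ _ _ _ _ (by omega) (by omega) (by omega) (by omega), Option.bind_some,
            nb_append, ns4_pos _ _ _ _ _ _ _ h0 (by omega), Option.bind_some]
          exact sz _ _ _ _ _ _ _ _ _ h1 (by omega) (by omega) (by omega) (by omega)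
    | halt =>
      simp only [hP] at hs
      exact absurd hs (by simp)

end P913N
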