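import Pool.Agent.Lib.P913N.NSt
import Pool.Agent.Lib.P913N.NHs
import Pool.Agent.Lib.P913.KRound

/-!
# Slots: the program of a counter machine (system N)
-/

set_option autoImplicit false

namespace P913N

open P913

/-- the slot of the control point `t` -/
def nslot {N : ℕ} (P : Fin N → CI (Fin N)) (t : Fin N) : List Bk :=
  match P t with
  | .go q => ns1 N (dst N t q + 1) 0 0 0 0 0 0 0
  | .inc .a q => ns1 N (dst N t q + 1) 0 1 0 0 0 0 0
  | .inc .b q => ns1 N (dst N t q + 1) 0 0 1 0 0 0 0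
  | .inc .c q => ns1 N (dst N t q + 1) 0 0 0 1 0 0 0
  | .dec .a q0 q1 => ns1 N 0 1 0 0 0 1 0 0 ++
      (ns2 N (dst N t q0 + 1) ++ ns1 N (dst N t q1 + 1) 0 0 0 0 0 0 0)
  | .dec .b q0 q1 => ns1 N 0 1 0 0 0 0 1 0 ++
      (ns3 N (dst N t q0 + 1) ++ ns1 N (dst N t q1 + 1) 0 0 0 0 0 0 0)
  | .dec .c q0 q1 => ns1 N 0 1 0 0 0 0 0 1 ++
      (ns4 N (dst N t q0 + 1) ++ ns1 N (dst N t q1 + 1) 0 0 0 0 0 0 0)
  | .halt => nsh N

/-- the program of a counter machine with `c + 1` neutral rows -/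
def nprog {N : ℕ} (P : Fin N → CI (Fin N)) (c : ℕ) : List Bk :=
  nopn ++ ((List.finRange N).flatMap (nslot P) ++ (List.replicate c nopn).flatten)

end P913N
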