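import Pool.Agent.Lib.P913N.NSeg

/-!
# The segments of the program (system N): the four tests and the neutral row
-/

set_option autoImplicit false

namespace P913N

open P913

theorem ns1_zero (N D w u2 u3 u4 v2 v3 v4 Y a b c : ℕ) (hD : D ≤ N) (hw : w ≤ 1) (hDw : 1 ≤ D + w)
    (hu2 : u2 ≤ 1) (hu3 : u3 ≤ 1) (hu4 : u4 ≤ 1)
    (hv2 : v2 ≤ 1) (hv3 : v3 ≤ 1) (hv4 : v4 ≤ 1) (hY : 2 * gg N ≤ Y) :
    nb (ns1 N D w u2 u3 u4 v2 v3 v4) (rn N Y 0 (a, b, c)) =
      some (rn N (Y + 53 - 3 * (D + w + u2 + u3 + u4)) (D + w - 1) (a + u2, b + u3, c + u4)) := by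
  have hG : gg N = 3 * N + 400 := rfl
  unfold ns1 rn
  generalize gg N = G at *
  simp only [Nat.mul_zero, Nat.add_zero]
  rw [nr1z1 _ _ _ _ _ _ _ _ _ _ _ _ (by omega) (by omega) (by omega) (by omega) (by omega) (by omega) (by omega) (by omega) (by omega) (by omega)]
  rw [nr2z _ _ _ _ _ _ _ _ _ _ _ _ _ (by omega) (by omega) (by omega) (by omega) (by omega) (by omega) (by omega) (by omega) (by omega) (by omega) (by omega)]
  rw [nr3z _ _ _ _ _ _ _ _ _ _ _ _ _ _ (by omega) (by omega) (by omega) (by omega) (by omega) (by omega) (by omega) (by omega) (by omega) (by omega) (by omega) (by omega)]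
  rw [nrM _ _ _ _ _ _ _ _ _ _ _ _ _ (by omega) (by omega) (by omega) (by omega) (by omega) (by omega) (by omega) (by omega) (by omega) (by omega) (by omega) (by omega)]
  simp only [nb_nil, Option.some.injEq]
  congr 1
  simp only [List.cons.injEq, and_true]
  refine ⟨?_, ?_, ?_, ?_, ?_, ?_⟩ <;> omega

theorem ns1_pos (N D w u2 u3 u4 v2 v3 v4 Y J a b c : ℕ) (hD : D ≤ N) (hw : w ≤ 1)
    (hu2 : u2 ≤ 1) (hu3 : u3 ≤ 1) (hu4 : u4 ≤ 1)
    (hv2 : v2 ≤ 1) (hv3 : v3 ≤ 1) (hv4 : v4 ≤ 1) (hY : 2 * gg N ≤ Y) :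
    nb (ns1 N D w u2 u3 u4 v2 v3 v4) (rn N Y (J + 1) (a, b, c)) =
      some (rn N (Y + 53 - 3 * (w + v2 + v3 + v4)) (J + w) (a + v2, b + v3, c + v4)) := by
  have hG : gg N = 3 * N + 400 := rfl
  unfold ns1 rn
  generalize gg N = G at *
  dsimp only
  rw [nr1n1 _ _ _ _ _ _ _ _ _ _ _ _ _ (by omega) (by omega) (by omega) (by omega) (by omega) (by omega) (by omega) (by omega) (by omega) (by omega) (by omega)]
  rw [nr2n1 _ _ _ _ _ _ _ _ _ _ _ _ _ (by omega) (by omega) (by omega) (by omega) (by omega) (by omega) (by omega) (by omega) (by omega) (by omega)]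
  rw [nrM _ _ _ _ _ _ _ _ _ _ _ _ _ (by omega) (by omega) (by omega) (by omega) (by omega) (by omega) (by omega) (by omega) (by omega) (by omega) (by omega) (by omega)]
  rw [nrM _ _ _ _ _ _ _ _ _ _ _ _ _ (by omega) (by omega) (by omega) (by omega) (by omega) (by omega) (by omega) (by omega) (by omega) (by omega) (by omega) (by omega)]
  simp only [nb_nil, Option.some.injEq]
  congr 1
  simp only [List.cons.injEq, and_true]
  refine ⟨?_, ?_, ?_, ?_, ?_, ?_⟩ <;> omega

theorem ns2_zero (N D Y J b c : ℕ) (hD : D ≤ N) (hY : 2 * gg N ≤ Y) :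
    nb (ns2 N D) (rn N Y J (0, b, c)) = some (rn N (Y + 50 - 3 * D) (J + D) (0, b, c)) := by
  have hG : gg N = 3 * N + 400 := rfl
  unfold ns2 rn
  generalize gg N = G at *
  simp only [Nat.mul_zero, Nat.add_zero]
  rw [nr1z2 _ _ _ _ _ _ _ _ _ _ _ _ (by omega) (by omega) (by omega) (by omega) (by omega) (by omega) (by omega) (by omega) (by omega) (by omega)]
  rw [nr2z _ _ _ _ _ _ _ _ _ _ _ _ _ (by omega) (by omega) (by omega) (by omega) (by omega) (by omega) (by omega) (by omega) (by omega) (by omega) (by omega)]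
  rw [nr3z _ _ _ _ _ _ _ _ _ _ _ _ _ _ (by omega) (by omega) (by omega) (by omega) (by omega) (by omega) (by omega) (by omega) (by omega) (by omega) (by omega) (by omega)]
  rw [nrM _ _ _ _ _ _ _ _ _ _ _ _ _ (by omega) (by omega) (by omega) (by omega) (by omega) (by omega) (by omega) (by omega) (by omega) (by omega) (by omega) (by omega)]
  simp only [nb_nil, Option.some.injEq]
  congr 1
  simp only [List.cons.injEq, and_true]
  refine ⟨?_, ?_, ?_, ?_, ?_, ?_⟩ <;> omega

theorem ns2_pos (N D Y J a b c : ℕ) (hD : D ≤ N) (hY : 2 * gg N ≤ Y) :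
    nb (ns2 N D) (rn N Y J (a + 1, b, c)) = some (rn N (Y + 53) J (a, b, c)) := by
  have hG : gg N = 3 * N + 400 := rfl
  unfold ns2 rn
  generalize gg N = G at *
  dsimp only
  rw [nr1n2 _ _ _ _ _ _ _ _ _ _ _ _ _ (by omega) (by omega) (by omega) (by omega) (by omega) (by omega) (by omega) (by omega) (by omega) (by omega) (by omega)]
  rw [nr2n2 _ _ _ _ _ _ _ _ _ _ _ _ _ (by omega) (by omega) (by omega) (by omega) (by omega) (by omega) (by omega) (by omega) (by omega) (by omega)]
  rw [nrM _ _ _ _ _ _ _ _ _ _ _ _ _ (by omega) (by omega) (by omega) (by omega) (by omega) (by omega) (by omega) (by omega) (by omega) (by omega) (by omega) (by omega)]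
  rw [nrM _ _ _ _ _ _ _ _ _ _ _ _ _ (by omega) (by omega) (by omega) (by omega) (by omega) (by omega) (by omega) (by omega) (by omega) (by omega) (by omega) (by omega)]
  simp only [nb_nil, Option.some.injEq]
  congr 1
  simp only [List.cons.injEq, and_true]
  refine ⟨?_, ?_, ?_, ?_, ?_, ?_⟩ <;> omega

theorem ns3_zero (N D Y J a c : ℕ) (hD : D ≤ N) (hY : 2 * gg N ≤ Y) :
    nb (ns3 N D) (rn N Y J (a, 0, c)) = some (rn N (Y + 50 - 3 * D) (J + D) (a, 0, c)) := by
  have hG : gg N = 3 * N + 400 := rfl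
  unfold ns3 rn
  generalize gg N = G at *
  simp only [Nat.mul_zero, Nat.add_zero]
  rw [nr1z3 _ _ _ _ _ _ _ _ _ _ _ _ (by omega) (by omega) (by omega) (by omega) (by omega) (by omega) (by omega) (by omega) (by omega) (by omega)]
  rw [nr2z _ _ _ _ _ _ _ _ _ _ _ _ _ (by omega) (by omega) (by omega) (by omega) (by omega) (by omega) (by omega) (by omega) (by omega) (by omega) (by omega)]
  rw [nr3z _ _ _ _ _ _ _ _ _ _ _ _ _ _ (by omega) (by omega) (by omega) (by omega) (by omega) (by omega) (by omega) (by omega) (by omega) (by omega) (by omega) (by omega)]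
  rw [nrM _ _ _ _ _ _ _ _ _ _ _ _ _ (by omega) (by omega) (by omega) (by omega) (by omega) (by omega) (by omega) (by omega) (by omega) (by omega) (by omega) (by omega)]
  simp only [nb_nil, Option.some.injEq]
  congr 1
  simp only [List.cons.injEq, and_true]
  refine ⟨?_, ?_, ?_, ?_, ?_, ?_⟩ <;> omega

theorem ns3_pos (N D Y J a b c : ℕ) (hD : D ≤ N) (hY : 2 * gg N ≤ Y) :
    nb (ns3 N D) (rn N Y J (a, b + 1, c)) = some (rn N (Y + 53) J (a, b, c)) := by
  have hG : gg N = 3 * N + 400 := rfl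
  unfold ns3 rn
  generalize gg N = G at *
  dsimp only
  rw [nr1n3 _ _ _ _ _ _ _ _ _ _ _ _ _ (by omega) (by omega) (by omega) (by omega) (by omega) (by omega) (by omega) (by omega) (by omega) (by omega) (by omega)]
  rw [nr2n3 _ _ _ _ _ _ _ _ _ _ _ _ _ (by omega) (by omega) (by omega) (by omega) (by omega) (by omega) (by omega) (by omega) (by omega) (by omega)]
  rw [nrM _ _ _ _ _ _ _ _ _ _ _ _ _ (by omega) (by omega) (by omega) (by omega) (by omega) (by omega) (by omega) (by omega) (by omega) (by omega) (by omega) (by omega)]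
  rw [nrM _ _ _ _ _ _ _ _ _ _ _ _ _ (by omega) (by omega) (by omega) (by omega) (by omega) (by omega) (by omega) (by omega) (by omega) (by omega) (by omega) (by omega)]
  simp only [nb_nil, Option.some.injEq]
  congr 1
  simp only [List.cons.injEq, and_true]
  refine ⟨?_, ?_, ?_, ?_, ?_, ?_⟩ <;> omega

theorem ns4_zero (N D Y J a b : ℕ) (hD : D ≤ N) (hY : 2 * gg N ≤ Y) :
    nb (ns4 N D) (rn N Y J (a, b, 0)) = some (rn N (Y + 50 - 3 * D) (J + D) (a, b, 0)) := by
  have hG : gg N = 3 * N + 400 := rfl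
  unfold ns4 rn
  generalize gg N = G at *
  simp only [Nat.mul_zero, Nat.add_zero]
  rw [nr1z4 _ _ _ _ _ _ _ _ _ _ _ _ (by omega) (by omega) (by omega) (by omega) (by omega) (by omega) (by omega) (by omega) (by omega) (by omega)]
  rw [nr2z _ _ _ _ _ _ _ _ _ _ _ _ _ (by omega) (by omega) (by omega) (by omega) (by omega) (by omega) (by omega) (by omega) (by omega) (by omega) (by omega)]
  rw [nr3z _ _ _ _ _ _ _ _ _ _ _ _ _ _ (by omega) (by omega) (by omega) (by omega) (by omega) (by omega) (by omega) (by omega) (by omega) (by omega) (by omega) (by omega)]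
  rw [nrM _ _ _ _ _ _ _ _ _ _ _ _ _ (by omega) (by omega) (by omega) (by omega) (by omega) (by omega) (by omega) (by omega) (by omega) (by omega) (by omega) (by omega)]
  simp only [nb_nil, Option.some.injEq]
  congr 1
  simp only [List.cons.injEq, and_true]
  refine ⟨?_, ?_, ?_, ?_, ?_, ?_⟩ <;> omega

theorem ns4_pos (N D Y J a b c : ℕ) (hD : D ≤ N) (hY : 2 * gg N ≤ Y) :
    nb (ns4 N D) (rn N Y J (a, b, c + 1)) = some (rn N (Y + 53) J (a, b, c)) := by
  have hG : gg N = 3 * N + 400 := rfl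
  unfold ns4 rn
  generalize gg N = G at *
  dsimp only
  rw [nr1n4 _ _ _ _ _ _ _ _ _ _ _ _ _ (by omega) (by omega) (by omega) (by omega) (by omega) (by omega) (by omega) (by omega) (by omega) (by omega) (by omega)]
  rw [nr2n4 _ _ _ _ _ _ _ _ _ _ _ _ _ (by omega) (by omega) (by omega) (by omega) (by omega) (by omega) (by omega) (by omega) (by omega) (by omega)]
  rw [nrM _ _ _ _ _ _ _ _ _ _ _ _ _ (by omega) (by omega) (by omega) (by omega) (by omega) (by omega) (by omega) (by omega) (by omega) (by omega) (by omega) (by omega)]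
  rw [nrM _ _ _ _ _ _ _ _ _ _ _ _ _ (by omega) (by omega) (by omega) (by omega) (by omega) (by omega) (by omega) (by omega) (by omega) (by omega) (by omega) (by omega)]
  simp only [nb_nil, Option.some.injEq]
  congr 1
  simp only [List.cons.injEq, and_true]
  refine ⟨?_, ?_, ?_, ?_, ?_, ?_⟩ <;> omega

theorem nopn_run (N Y J : ℕ) (v : ℕ × ℕ × ℕ) : nb nopn (rn N Y J v) = some (rn N (Y + 12) J v) := by
  have hG : gg N = 3 * N + 400 := rfl
  unfold nopn rn
  generalize gg N = G at *
  rw [nrM _ _ _ _ _ _ _ _ _ _ _ _ _ (by omega) (by omega) (by omega) (by omega) (by omega) (by omega) (by omega) (by omega) (by omega) (by omega) (by omega) (by omega)]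
  simp only [nb_nil, Option.some.injEq]
  congr 1
  simp only [List.cons.injEq, and_true]
  refine ⟨?_, ?_, ?_, ?_, ?_, ?_⟩ <;> omega

end P913N
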