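import Pool.Agent.Lib.P913.KSys

/-!
# The queue system N

The program is a cyclic word of bits, the data are a queue of bits.  The classes `a`, `c`, `g` read one bit of the program;
the class `s` (stuck) is absorbing.  In class `a` the bit `0` halts the system.
-/

set_option autoImplicit false

namespace P913N

open P913

/-- the classes of the system N -/
inductive NC
  | a
  | c
  | g
  | s
  deriving DecidableEq

/-- one step of the system N: class, bit of the program, queue; `none` = the system halts -/
def nst : NC → Bool → List Bool → Option (NC × List Bool)
  | .a, false, _ => none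
  | .a, true, q => some (.c, q ++ [false])
  | .c, _, [] => some (.s, [])
  | .c, false, z :: t => some (.c, if z = true then t ++ [false, false] else t ++ [false])
  | .c, true, true :: t => some (.g, t ++ [true])
  | .c, true, false :: t => some (.a, rotf 0 (t ++ [true, true]))
  | .g, true, q => some (.c, q ++ [true])
  | .g, false, q => if true ∈ q then some (.g, rotf 0 (q ++ [false, false])) else some (.s, q)
  | .s, _, q => some (.s, q)

/-- the steps for a word of the program -/
def nrun : List Bool → NC × List Bool → Option (NC × List Bool)
  | [], x => some x
  | b :: w, x => (nst x.1 b x.2).bind (nrun w)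

/-- one round of the program -/
def nround (w : List Bool) (o : Option (NC × List Bool)) : Option (NC × List Bool) := o.bind (nrun w)

/-- the system with the program `w` halts on `x` -/
def NHalts (w : List Bool) (x : NC × List Bool) : Prop := ∃ m : ℕ, (nround w)^[m] (some x) = none

/-- blocks of the program -/
inductive Bk
  | M (n : ℕ)
  | Z (n : ℕ)
  | H

/-- the words of the blocks: `1 0^n 1`, `1 1 1 0^n 1`, `1 1 0` -/
def Bk.w : Bk → List Bool
  | .M n => true :: (List.replicate n false ++ [true])
  | .Z n => true :: true :: true :: (List.replicate n false ++ [true])
  | .H => [true, true, false]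

/-- the word of a list of blocks -/
def kw (bs : List Bk) : List Bool := bs.flatMap Bk.w

/-- the steps for a list of blocks -/
def nb (bs : List Bk) (x : NC × List Bool) : Option (NC × List Bool) := nrun (kw bs) x

/-- the queue `0^{c_0} 1 0^{c_1} 1 ... 0^x` -/
def oq (c : List ℕ) (x : ℕ) : List Bool := (c.flatMap fun y => List.replicate y false ++ [true]) ++ List.replicate x false

/-- the gaps of fat particles -/
def fat (t : List ℕ) : List ℕ := t.flatMap fun y => [y, 0]

/-- the state of rest with the gaps `x :: t` of fat particles, at the first bit of a block -/
def fa : List ℕ → NC × List Bool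
  | [] => (.a, [])
  | x :: t => (.a, oq (0 :: fat t) x)

/-- the gaps: dump `Y`, jump register `J`, counters -/
def rn (N Y J : ℕ) (v : ℕ × ℕ × ℕ) : NC × List Bool :=
  fa [Y, gg N + 3 * J, gg N + 3 * v.1, gg N + 3 * v.2.1, gg N + 3 * v.2.2, gg N + 100]

/-- a neutral row -/
def nopn : List Bk := [.M 11, .M 9, .M 7, .M 5, .M 3, .M 1]

end P913N
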