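import Pool.Agent.Lib.P913N.NSimD
import Pool.Agent.Lib.P913.KRun

/-!
# The node system: the abstract system executed by the machines for the system N

A configuration: a node `g`, a held bit `h`, the program ring `p` (the cell next to the node is the head of the list) and
the data queue `q` (the front is the head of the list, it is at the far end of the tape).  The nodes `n1`, `n4` receive
letters of the program ring, the other nodes receive the parity of the data ring.

The head goes to the program ring: the parity of the ring becomes the last letter, the first letter is received.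
The head goes to the data ring with the letter `e`: `e` is pushed, the first letter `z` is removed, the node receives
the parity of the zeros of the new queue, and if `z = 1`, then a `0` is put in front of the queue.
-/

set_option autoImplicit false

namespace P913N

open P913

/-- the nodes -/
inductive Nd
  | n0
  | n1
  | n2
  | n3
  | n4
  deriving DecidableEq, Fintype

/-- the node receives letters of the program ring -/
def Nd.wp : Nd → Bool
  | .n0 => false
  | .n1 => true
  | .n2 => false
  | .n3 => false
  | .n4 => true

/-- the table: `some (g', none)`: the head goes to the program ring, `some (g', some e)`: the letter `e` is pushed to the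
data queue, `none`: halt -/
def Nd.F : Nd → Bool → Option (Nd × Option Bool)
  | .n0, false => some (.n1, none)
  | .n0, true => some (.n2, some true)
  | .n1, false => some (.n3, some false)
  | .n1, true => some (.n0, some true)
  | .n2, false => some (.n2, some false)
  | .n2, true => some (.n4, none)
  | .n3, false => some (.n1, none)
  | .n3, true => some (.n3, some false)
  | .n4, false => none
  | .n4, true => some (.n0, some false)

/-- a configuration of the node system -/
@[ext] structure ZC where
  g : Nd
  h : Bool
  p : List Bool
  q : List Bool

/-- the parity of the number of the ones -/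
def bp (l : List Bool) : Bool := l.foldr xor false

/-- the parity of the number of the zeros -/
def zp (l : List Bool) : Bool := bp (l.map not)

/-- one step of the node system; `none`: the system halts -/
def zstep (c : ZC) : Option ZC :=
  match c.g.F c.h with
  | none => none
  | some (g', none) => some ⟨g', (popq (c.p ++ [bp c.p])).1, (popq (c.p ++ [bp c.p])).2, c.q⟩
  | some (g', some e) => some ⟨g', zp (popq (c.q ++ [e])).2, c.p,
      if (popq (c.q ++ [e])).1 = true then false :: (popq (c.q ++ [e])).2 else (popq (c.q ++ [e])).2⟩

/-- `n` steps (a halting configuration is kept) -/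
def ziter (n : ℕ) (c : ZC) : ZC := (fun c => (zstep c).getD c)^[n] c

/-- the node system halts -/
def ZHalts (c : ZC) : Prop := ∃ n : ℕ, zstep (ziter n c) = none

/-- A machine with local computations which execute the node system. -/
structure NLoc {k n : ℕ} [NeZero k] [NeZero n] (U : TM k n) where
  /-- right passes (exchange of the carried letter) -/
  qA : Bool → Fin k
  /-- left passes (parity) -/
  qB : Bool → Fin k
  /-- letter, the head is on its left -/
  cr : Bool → List (Fin n)
  /-- letter, the head is on its right -/
  cl : Bool → List (Fin n)
  /-- left end -/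
  E : List (Fin n)
  /-- the word which is read at the start and becomes the left end -/
  S : List (Fin n)
  /-- the letter carried after the start -/
  h0 : Bool
  /-- the bit carried to the program ring -/
  c : Bool
  /-- the words of the nodes -/
  W : Nd → List (Fin n)
  /-- the word of the node `n4` after the halting computation -/
  FH : List (Fin n)
  /-- the length of a cell in the l-form -/
  m : ℕ
  m_pos : 0 < m
  cl_len : ∀ b, (cl b).length = m
  /-- the final word begins with `s` cells, then something else follows -/
  s : ℕ
  FH_cells : ∀ i < s, ∃ b, chk 0 m FH i = cl b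
  FH_stop : ∀ b, chk 0 m FH s ≠ cl b
  FH_len : m * (s + 1) ≤ FH.length
  cr_nz : ∀ b, ∃ s ∈ cr b, s ≠ 0
  E_ne : E ≠ []
  passR : ∀ (h x : Bool) (l r : List (Fin n)), l ≠ [] →
    Rn U (AR l (qA h) (cr x ++ r)) (AR ((cl h).reverse ++ l) (qA x) r)
  passL : ∀ (h x : Bool) (l r : List (Fin n)), l ≠ [] →
    Rn U (AL ((cl x).reverse ++ l) (qB h) r) (AL l (qB (xor h x)) (cr x ++ r))
  lend : ∀ (h : Bool) (r : List (Fin n)), Rn U (AL E.reverse (qB h) r) (AR E.reverse (qA (xor h c)) r)
  /-- the number of cells of the left end which are left of the input word -/
  o : ℕ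
  ho : o ≤ E.length
  start : ∀ r : List (Fin n), Rn U (AR (List.replicate o 0) 0 (S ++ r)) (AR E.reverse (qA h0) r)
  rend0 : ∀ l : List (Fin n), l ≠ [] → Rn U (AR l (qA false) []) (AL l (qB false) (cr true))
  rend1 : ∀ l : List (Fin n), l ≠ [] → Rn U (AR l (qA true) []) (AL l (qB false) [])
  fA : ∀ (g : Nd) (h : Bool) (g' : Nd) (e : Bool), g.wp = true → g.F h = some (g', some e) →
    ∀ l r : List (Fin n), l ≠ [] → Rp U (AR l (qA h) (W g ++ r)) (AR ((W g').reverse ++ l) (qA !e) r)
  fR : ∀ (g : Nd) (h : Bool) (g' : Nd) (e : Bool), g.wp = false → g.F h = some (g', some e) →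
    ∀ l r : List (Fin n), l ≠ [] →
      Rp U (AL ((W g).reverse ++ l) (qB h) r) (AR ((W g').reverse ++ l) (qA !e) r)
  fL : ∀ (g : Nd) (h : Bool) (g' : Nd), g.wp = false → g.F h = some (g', none) →
    ∀ l r : List (Fin n), l ≠ [] →
      Rp U (AL ((W g).reverse ++ l) (qB h) r) (AL l (qB c) (W g' ++ r))
  halt : ∀ l r : List (Fin n), l ≠ [] → ∃ t : ℕ,
    ((P913.step U)^[t] (AR l (qA false) (W .n4 ++ r))).st = none ∧
    ((P913.step U)^[t] (AR l (qA false) (W .n4 ++ r))).tape = wordTape (l.reverse ++ (FH ++ r))

section

variable {k n : ℕ} [NeZero k] [NeZero n] {U : TM k n} (L : NLoc U)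

/-- the cells left of the node -/
def NLoc.lw (p : List Bool) : List (Fin n) := (p.reverse.flatMap L.cl).reverse ++ L.E.reverse

/-- the cells of the data queue -/
def NLoc.dw (q : List Bool) : List (Fin n) := (q.map not).reverse.flatMap L.cr

/-- the configuration of the machine when the node receives the bit -/
def NLoc.C (c : ZC) : Cfg k n :=
  if c.g.wp then AR (L.lw c.p) (L.qA c.h) (L.W c.g ++ L.dw c.q)
  else AL ((L.W c.g).reverse ++ L.lw c.p) (L.qB c.h) (L.dw c.q)

/-- the input word -/
def NLoc.input (w q : List Bool) : List (Fin n) :=
  L.S ++ (w.dropLast.reverse.flatMap L.cr ++ (L.W .n1 ++ L.dw q))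

/-- the number of program cells can be read from the final tape -/
def NLoc.dec0 (w : List ℕ) : ℕ :=
  ((List.range w.length).map fun i =>
    decide (chk 0 L.m (w.drop (L.E.length - L.o)) i = (L.cl true).map (fun s : Fin n => (s : ℕ)) ∨
      chk 0 L.m (w.drop (L.E.length - L.o)) i = (L.cl false).map (fun s : Fin n => (s : ℕ)))).foldr
    (fun b a => if b then a + 1 else 0) 0 - L.s

/-- the cells of the final tape -/
def NLoc.final (p q : List Bool) : List (Fin n) :=
  L.E ++ (p.reverse.flatMap L.cl ++ (L.FH ++ L.dw q))

end

end P913N
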