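import Pool.Agent.Lib.P913N.NPrim
import Pool.Agent.Lib.P913N.NSimD

/-!
# Machines which simulate the system N are universal
-/

set_option autoImplicit false

namespace P913N

open P913

private theorem nround_none (w : List Bool) (n : ℕ) : (nround w)^[n] none = none := by
  induction n with
  | zero => rfl
  | succ n ih =>
    rw [Function.iterate_succ_apply]
    exact ih

theorem universal_of_nsim {k n : ℕ} [NeZero k] [NeZero n] (U : TM k n) (h : NSimU U) : Universal U := by
  refine universal_of_simF U fun F hF => ?_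
  have hf : Partrec (fun c : ℕ => (F c).map fun _ => (0 : ℕ)) :=
    hF.map (Computable.const 0).to₂
  obtain ⟨w0, D, hD, hv⟩ := exists_nn _ (Partrec.nat_iff.mp hf)
  obtain ⟨inp, dec0, hinp, hdec0, hsim⟩ := h
  have hR : Computable fun c : ℕ => nwd w0 c := (nwd_prim w0).to_comp
  have hdom : ∀ c, NHalts (nwd w0 c) (NC.c, D c) ↔ (F c).Dom := fun c => (hv c c).2.2.2
  have hD2 : Computable fun c : ℕ => (NC.c, D c) := Computable.pair (Computable.const NC.c) hD
  have hdiv : Primrec fun a : ℕ => (a + 1 - (w0.length + 2)) / 48 :=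
    Primrec.nat_div.comp (Primrec.nat_sub.comp Primrec.succ (Primrec.const _))
      (Primrec.const 48)
  refine ⟨fun c => inp (nwd w0 c) (D c),
    fun w => (dec0 w.2 + 1 - (w0.length + 2)) / 48,
    fun p => ((nround (nwd w0 p.1))^[p.2] (some (NC.c, D p.1))).isNone, hinp.comp hR hD,
    hdiv.to_comp.comp (hdec0.comp Computable.snd),
    nrounds_prim.to_comp.comp (Computable.pair (hR.comp Computable.fst)
      (Computable.pair Computable.snd (hD2.comp Computable.fst))), ?_, ?_⟩
  · intro c N hc
    exact (hdom c).mp ⟨N, Option.isNone_iff_eq_none.mp hc⟩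
  · intro c
    have hlenR := nwd_length w0 c
    obtain ⟨h1, h2⟩ := hsim (nwd w0 c) (D c) (by omega) (hv c c).1 (nwd_last w0 c) (nwd_mem w0 c)
      (hv c c).2.1 (hv c c).2.2.1
    refine ⟨h1.trans (hdom c), fun T hT => ?_⟩
    obtain ⟨w, hw, hdw, m, hm, hnone⟩ := h2 T hT
    refine ⟨w, hw, ?_, ?_⟩
    · change (dec0 w.2 + 1 - (w0.length + 2)) / 48 = c
      rw [hdw, hlenR]
      omega
    · change ((nround (nwd w0 c))^[w.2.length] (some (NC.c, D c))).isNone = true
      have h3 : w.2.length = (w.2.length - m) + m := by omega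
      rw [h3, Function.iterate_add_apply, hnone, nround_none]
      rfl

end P913N
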